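import Pool.Agent.Lib.MP_a17342_co.Rank

/-!
# Choice of the closing links (bases of strips and blocks)
-/

set_option autoImplicit false

namespace Pool.Agent.Lib.MP_a17342_co

variable {V : Type*}

/-- The base of a strip lies in the first block touching it, in the topmost row of the strip in
that block; the base of a block lies in its leftmost strip, touched by an earlier block, (or in the
strip of `z'`), in the first column of the block in that strip. -/
structure Bases (μ f g : V → V) (z w z' w' : V) (ρB ρX ft : V → ℕ) (bX bB : V → V) : Prop where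
  X1 : ∀ u v, Conn g f u v → bX u = bX v
  X2 : ∀ v, Conn g f v (bX v)
  B1 : ∀ u v, Conn μ f u v → bB u = bB v
  B2 : ∀ v, Conn μ f v (bB v)
  Xz : bX z = w
  Xz' : bX z' = w'
  Bz : bB z = z
  X3 : ∀ v, ¬ Conn g f z v → ¬ Conn g f z' v → ρB (bX v) = ft v
  X4 : ∀ v, ¬ Conn g f z v → ¬ Conn g f z' v → ∀ u, Conn g f v u → Conn μ f (bX v) u →
    idx μ f (bB (bX v)) (bX v) ≤ idx μ f (bB (bX v)) u
  B3 : ∀ v, ¬ Conn μ f z v →
    ((∀ u, Conn μ f v u → ρX (bB v) ≤ ρX u) ∧
      (Conn g f z (bB v) ∨ (¬ Conn g f z' (bB v) ∧ ft (bB v) < ρB v))) ∨ Conn g f z' (bB v)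
  B4 : ∀ v, ¬ Conn μ f z v → ∀ u, Conn μ f v u → Conn g f (bB v) u →
    idx g f (bX (bB v)) (bB v) ≤ idx g f (bX (bB v)) u

theorem exists_bases [Fintype V] (μ f g : V → V) (z w z' w' : V) (hzw : Conn g f z w)
    (hzw' : Conn g f z' w') (hzz : ¬ Conn g f z z') (hbz : Conn μ f z z')
    (ρB : V → ℕ) (hρB1 : ∀ u v, ρB u = ρB v ↔ Conn μ f u v)
    (hρB2 : ∀ v, ¬ Conn μ f z v → ρB z < ρB v)
    (hρB3 : ∀ v, ¬ Conn μ f z v → ∃ u v1, Conn g f u v1 ∧ Conn μ f v1 v ∧ ρB u < ρB v)
    (ρX ft : V → ℕ) (hX1 : ∀ u v, ρX u = ρX v ↔ Conn g f u v) (hX2 : ρX z = 0)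
    (hX3 : ∀ v, ρX v ≤ ρX z') (hf1 : ∀ u v, Conn g f u v → ft u = ft v)
    (hf2 : ∀ v, ∃ u, Conn g f v u ∧ ρB u = ft v) (hf3 : ∀ v u, Conn g f v u → ft v ≤ ρB u)
    (hf4 : ∀ u v, ¬ Conn g f z u → ¬ Conn g f z' u → ¬ Conn g f z v → ¬ Conn g f z' v →
        ρX u ≤ ρX v → ft u ≤ ft v) :
    ∃ bX bB : V → V, Bases μ f g z w z' w' ρB ρX ft bX bB := by
  classical
  have : Nonempty V := ⟨z⟩
  -- parent of a strip
  choose pX hpX1 hpX2 using hf2
  -- parent of a block
  have hpar : ∀ v, ¬ Conn μ f z v → ∃ u, Conn μ f v u ∧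
      (((∀ u', Conn μ f v u' → ρX u ≤ ρX u') ∧
        (Conn g f z u ∨ (¬ Conn g f z' u ∧ ft u < ρB v))) ∨ Conn g f z' u) := by
    intro v hv
    obtain ⟨u0, v1, h1, h2, h3⟩ := hρB3 v hv
    by_cases hv1 : Conn g f z' v1
    · exact ⟨v1, h2.symm, Or.inr hv1⟩
    · obtain ⟨u, hu1, hu2⟩ := exists_min (fun u => Conn μ f v u) ⟨v, Conn.refl v⟩ ρX
      refine ⟨u, hu1, Or.inl ⟨hu2, ?_⟩⟩
      by_cases hu3 : Conn g f z u
      · exact Or.inl hu3
      right
      have h4 : ρX u ≤ ρX v1 := hu2 v1 h2.symm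
      have hu4 : ¬ Conn g f z' u := by
        intro h5
        have h6 := (hX1 z' u).2 h5
        have h7 := hX3 v1
        have h8 : ρX z' = ρX v1 := by omega
        exact hv1 ((hX1 _ _).1 h8)
      refine ⟨hu4, ?_⟩
      have hv2 : ¬ Conn g f z v1 := by
        intro h5
        have h6 := (hX1 z v1).2 h5
        have h8 : ρX z = ρX u := by omega
        exact hu3 ((hX1 _ _).1 h8)
      have h9 := hf4 u v1 hu3 hu4 hv2 hv1 h4
      have h10 := hf3 v1 u0 h1.symm
      omega
  choose! pB hpB1 hpB2 using hpar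
  -- steps
  have hstX : ∀ v b : V, ∃ u, (Conn g f v u ∧ ρB u = ft v) ∧
      ∀ u', (Conn g f v u' ∧ ρB u' = ft v) → idx μ f b u ≤ idx μ f b u' := fun v b =>
    exists_min (fun u => Conn g f v u ∧ ρB u = ft v) ⟨pX v, hpX1 v, hpX2 v⟩ (idx μ f b)
  choose stX hstX1 hstX2 using hstX
  have hstB : ∀ v b : V, ¬ Conn μ f z v → ∃ u, (Conn μ f v u ∧ Conn g f (pB v) u) ∧
      ∀ u', (Conn μ f v u' ∧ Conn g f (pB v) u') → idx g f b u ≤ idx g f b u' := fun v b hv =>
    exists_min (fun u => Conn μ f v u ∧ Conn g f (pB v) u) ⟨pB v, hpB1 v hv, Conn.refl _⟩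
      (idx g f b)
  choose! stB hstB1 hstB2 using hstB
  let P : Bool × V → Bool × V := fun n =>
    if n.1 = true then (false, rep μ f (pX n.2)) else (true, rep g f (pB n.2))
  let rk : Bool × V → ℕ := fun n => if n.1 = true then 2 * ft n.2 + 1 else 2 * ρB n.2
  let sp : Bool × V → Prop := fun n =>
    if n.1 = true then Conn g f z n.2 ∨ Conn g f z' n.2 else Conn μ f z n.2
  let root : Bool × V → V := fun n =>
    if n.1 = true then (if Conn g f z n.2 then w else w') else z
  let step : Bool × V → V → V := fun n b => if n.1 = true then stX n.2 b else stB n.2 b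
  have hdec : ∀ n, ¬ sp n → rk (P n) < rk n := by
    rintro ⟨k, v⟩ hn
    cases k with
    | true =>
      show 2 * ρB (rep μ f (pX v)) < 2 * ft v + 1
      have h1 : ρB (rep μ f (pX v)) = ρB (pX v) := (hρB1 _ _).2 (rep_conn μ f (pX v))
      rw [h1, hpX2]
      omega
    | false =>
      have hv : ¬ Conn μ f z v := hn
      show 2 * ft (rep g f (pB v)) + 1 < 2 * ρB v
      have h1 : ft (rep g f (pB v)) = ft (pB v) := hf1 _ _ (rep_conn g f (pB v))
      rw [h1]
      have h2 : ft (pB v) < ρB v := by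
        rcases hpB2 v hv with ⟨_, h3 | h3⟩ | h3
        · have h4 := hf3 (pB v) z h3.symm
          have h5 := hρB2 v hv
          omega
        · exact h3.2
        · have h4 := hf3 (pB v) z' h3.symm
          have h5 := hρB2 v hv
          have h6 := (hρB1 z z').2 hbz
          omega
      omega
  obtain ⟨base, hb1, hb2⟩ := rec_exists P rk sp root step hdec
  have hbX : ∀ v, ¬ Conn g f z v → ¬ Conn g f z' v →
      base (true, v) = stX v (base (false, rep μ f (pX v))) := fun v h1 h2 =>
    hb2 (true, v) (fun h => h.elim h1 h2)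
  have hbB : ∀ v, ¬ Conn μ f z v → base (false, v) = stB v (base (true, rep g f (pB v))) :=
    fun v h1 => hb2 (false, v) h1
  have hrz : base (true, rep g f z) = w := by
    have h0 : Conn g f z (rep g f z) := (rep_conn g f z).symm
    rw [hb1 (true, rep g f z) (Or.inl h0)]
    exact if_pos h0
  have hrz' : base (true, rep g f z') = w' := by
    have h0 : Conn g f z' (rep g f z') := (rep_conn g f z').symm
    rw [hb1 (true, rep g f z') (Or.inr h0)]
    exact if_neg (fun h : Conn g f z (rep g f z') => hzz (h.trans h0.symm))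
  have hrB : base (false, rep μ f z) = z := by
    have h0 : Conn μ f z (rep μ f z) := (rep_conn μ f z).symm
    exact hb1 (false, rep μ f z) h0
  have hX2' : ∀ v, Conn g f v (base (true, rep g f v)) := by
    intro v
    by_cases h1 : Conn g f z v
    · rw [← rep_eq h1, hrz]
      exact h1.symm.trans hzw
    · by_cases h2 : Conn g f z' v
      · rw [← rep_eq h2, hrz']
        exact h2.symm.trans hzw'
      · have h3 : ¬ Conn g f z (rep g f v) := fun h => h1 (h.trans (rep_conn g f v))
        have h4 : ¬ Conn g f z' (rep g f v) := fun h => h2 (h.trans (rep_conn g f v))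
        rw [hbX _ h3 h4]
        exact (rep_conn g f v).symm.trans (hstX1 _ _).1
  have hB2' : ∀ v, Conn μ f v (base (false, rep μ f v)) := by
    intro v
    by_cases h1 : Conn μ f z v
    · rw [← rep_eq h1, hrB]
      exact h1.symm
    · have h3 : ¬ Conn μ f z (rep μ f v) := fun h => h1 (h.trans (rep_conn μ f v))
      rw [hbB _ h3]
      exact (rep_conn μ f v).symm.trans (hstB1 _ _ h3).1
  refine ⟨fun v => base (true, rep g f v), fun v => base (false, rep μ f v), ?_⟩
  refine ⟨?_, hX2', ?_, hB2', hrz, hrz', hrB, ?_, ?_, ?_, ?_⟩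
  · intro u v h
    show base (true, rep g f u) = base (true, rep g f v)
    rw [rep_eq h]
  · intro u v h
    show base (false, rep μ f u) = base (false, rep μ f v)
    rw [rep_eq h]
  · intro v h1 h2
    have h3 : ¬ Conn g f z (rep g f v) := fun h => h1 (h.trans (rep_conn g f v))
    have h4 : ¬ Conn g f z' (rep g f v) := fun h => h2 (h.trans (rep_conn g f v))
    show ρB (base (true, rep g f v)) = ft v
    rw [hbX _ h3 h4, (hstX1 _ _).2, hf1 _ _ (rep_conn g f v)]
  · intro v h1 h2 u hu1 hu2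
    have h3 : ¬ Conn g f z (rep g f v) := fun h => h1 (h.trans (rep_conn g f v))
    have h4 : ¬ Conn g f z' (rep g f v) := fun h => h2 (h.trans (rep_conn g f v))
    set r := rep g f v with hr
    have e1 : base (true, r) = stX r (base (false, rep μ f (pX r))) := hbX _ h3 h4
    have e2 : rep μ f (base (true, r)) = rep μ f (pX r) := by
      apply rep_eq
      rw [← hρB1, e1, (hstX1 _ _).2, hpX2]
    show idx μ f (base (false, rep μ f (base (true, r)))) (base (true, r)) ≤
      idx μ f (base (false, rep μ f (base (true, r)))) u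
    rw [e2, e1]
    refine hstX2 _ _ u ⟨(rep_conn g f v).trans hu1, ?_⟩
    have h5 : ρB (base (true, r)) = ρB u := (hρB1 _ _).2 hu2
    rw [← h5, e1, (hstX1 _ _).2]
  · intro v h1
    have h3 : ¬ Conn μ f z (rep μ f v) := fun h => h1 (h.trans (rep_conn μ f v))
    set r := rep μ f v with hr
    have e1 : base (false, r) = stB r (base (true, rep g f (pB r))) := hbB _ h3
    have e2 : Conn g f (pB r) (base (false, r)) := by
      rw [e1]
      exact (hstB1 _ _ h3).2
    have e3 : Conn μ f r v := rep_conn μ f v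
    show ((∀ u, Conn μ f v u → ρX (base (false, r)) ≤ ρX u) ∧
      (Conn g f z (base (false, r)) ∨ (¬ Conn g f z' (base (false, r)) ∧
        ft (base (false, r)) < ρB v))) ∨ Conn g f z' (base (false, r))
    have e4 : ρX (base (false, r)) = ρX (pB r) := ((hX1 _ _).2 e2).symm
    have e5 : ft (base (false, r)) = ft (pB r) := (hf1 _ _ e2).symm
    have e6 : ρB v = ρB r := ((hρB1 _ _).2 e3).symm
    rw [e4, e5, e6]
    rcases hpB2 r h3 with ⟨h5, h6⟩ | h5
    · left
      refine ⟨fun u hu => h5 u (e3.trans hu), ?_⟩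
      rcases h6 with h6 | ⟨h6, h7⟩
      · exact Or.inl (h6.trans e2)
      · exact Or.inr ⟨fun h => h6 (h.trans e2.symm), h7⟩
    · exact Or.inr (h5.trans e2)
  · intro v h1 u hu1 hu2
    have h3 : ¬ Conn μ f z (rep μ f v) := fun h => h1 (h.trans (rep_conn μ f v))
    set r := rep μ f v with hr
    have e1 : base (false, r) = stB r (base (true, rep g f (pB r))) := hbB _ h3
    have e0 : Conn g f (pB r) (base (false, r)) := by
      rw [e1]
      exact (hstB1 _ _ h3).2
    have e2 : rep g f (base (false, r)) = rep g f (pB r) := rep_eq e0.symm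
    show idx g f (base (true, rep g f (base (false, r)))) (base (false, r)) ≤
      idx g f (base (true, rep g f (base (false, r)))) u
    rw [e2, e1]
    refine hstB2 _ _ h3 u ⟨(rep_conn μ f v).trans hu1, ?_⟩
    exact e0.trans hu2

end Pool.Agent.Lib.MP_a17342_co
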