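import Pool.Agent.Lib.MP_a17342_co.Defs

/-!
# Choice of the links

`σ` is an orientation of the 2-factor, `μ` the perfect matching.  `c`, `c'` lie on the two odd cycles.
1. `z` in the cycle `C` of `c` with `μ z ∉ C` (otherwise `C` is closed under `μ, σ`, so it is
   everything by connectedness, but `c' ∉ C`); `w = σ z`.
2. On `C`: `f (σ^i z) = σ^(i+1) z` for odd `i`, `σ^(i-1) z` for even `i` (`0 < i <` length), `f z = z`;
   `g` is the other `σ`-neighbour, `g w = w`.  On even cycles: choose a base vertex, `f` = one of the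
   two perfect matchings, `g` the other.
3. `f₀` = this `f` and the identity on the cycle `C'` of `c'`.  The component of `z` under `(μ, f₀)`
   has exactly one more `f₀`-fixed point `z'` (two involutions, `μ` without fixed points: a
   component containing a fixed point of `f₀` contains exactly two; with `T = f₀ ∘ μ` the
   component of `z` is the `T`-orbit of `z`, `μ (T^i z) = T^(-i-1) z`, `f₀ (T^i z) = T^(-i) z`).
   So `z' ∈ C'`, and the component meets `C'` only in `z'`.
4. `w' = σ z'`, `f` on `C'` defined from `z'` as in 2.  The component of `z` does not change.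
-/

set_option autoImplicit false

namespace Pool.Agent.Lib.MP_a17342_co

open Function

section Index

variable {V : Type*} [Fintype V] (σ : Equiv.Perm V)

/-- length of the cycle of `v` -/
noncomputable def ln (v : V) : ℕ := minimalPeriod σ v

/-- index of `v` on the cycle of `b`, counted from `b` -/
noncomputable def ix (b v : V) : ℕ := sInf {i | σ^[i] b = v}

theorem ln_pos (v : V) : 0 < ln σ v :=
  minimalPeriod_pos_of_mem_periodicPts (σ.injective.mem_periodicPts v)

theorem ln_apply (v : V) : ln σ (σ v) = ln σ v :=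
  minimalPeriod_apply (σ.injective.mem_periodicPts v)

theorem ln_symm (v : V) : ln σ (σ.symm v) = ln σ v := by
  conv_rhs => rw [← σ.apply_symm_apply v]
  exact (ln_apply σ _).symm

theorem ln_iterate (v : V) (i : ℕ) : ln σ (σ^[i] v) = ln σ v := by
  induction i with
  | zero => rfl
  | succ i ih => rw [iterate_succ_apply', ln_apply, ih]

omit [Fintype V] in
theorem sameCycle_iterate (b : V) (i : ℕ) : σ.SameCycle b (σ^[i] b) := by
  induction i with
  | zero => exact Equiv.Perm.SameCycle.refl _ _
  | succ i ih => rw [iterate_succ_apply']; exact ih.apply_right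

theorem exists_iterate {b v : V} (h : σ.SameCycle b v) : ∃ i, σ^[i] b = v := by
  obtain ⟨i, hi⟩ := h.exists_nat_pow_eq
  exact ⟨i, by rw [Equiv.Perm.iterate_eq_pow]; exact hi⟩

theorem ln_eq {b v : V} (h : σ.SameCycle b v) : ln σ v = ln σ b := by
  obtain ⟨i, rfl⟩ := exists_iterate σ h
  exact ln_iterate σ b i

theorem iterate_ix {b v : V} (h : σ.SameCycle b v) : σ^[ix σ b v] b = v :=
  Nat.sInf_mem (s := {i | σ^[i] b = v}) (exists_iterate σ h)

theorem ix_lt {b v : V} (h : σ.SameCycle b v) : ix σ b v < ln σ b := by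
  obtain ⟨i, hi⟩ := exists_iterate σ h
  have h1 : σ^[i % ln σ b] b = v := by
    unfold ln
    rw [iterate_mod_minimalPeriod_eq]
    exact hi
  exact lt_of_le_of_lt (Nat.sInf_le h1) (Nat.mod_lt _ (ln_pos σ b))

theorem ix_eq {b v : V} {j : ℕ} (hj : j < ln σ b) (h : σ^[j] b = v) : ix σ b v = j := by
  have hs : σ.SameCycle b v := h ▸ sameCycle_iterate σ b j
  have h1 := iterate_ix σ hs
  exact (iterate_eq_iterate_iff_of_lt_minimalPeriod (ix_lt σ hs) hj).mp (h1.trans h.symm)

theorem ix_self (b : V) : ix σ b b = 0 := ix_eq σ (ln_pos σ b) rfl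

theorem ix_apply {b v : V} (h : σ.SameCycle b v) :
    ix σ b (σ v) = if ix σ b v + 1 = ln σ v then 0 else ix σ b v + 1 := by
  have hl := ix_lt σ h
  have h1 := iterate_ix σ h
  rw [ln_eq σ h]
  split_ifs with hc
  · apply ix_eq σ (ln_pos σ b)
    have h2 : σ v = σ^[ln σ b] b := by rw [← hc, iterate_succ_apply', h1]
    show b = σ v
    rw [h2]
    exact (iterate_minimalPeriod (f := σ) (x := b)).symm
  · apply ix_eq σ (by omega)
    rw [iterate_succ_apply', h1]

end Index

section Abstract

variable {V : Type*} (σ : Equiv.Perm V) (I L : V → ℕ)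

open Classical in
/-- the first matching -/
noncomputable def fI (v : V) : V :=
  if Odd (L v) ∧ I v = 0 then v else if Odd (I v) then σ v else σ.symm v

open Classical in
/-- the second matching -/
noncomputable def gI (v : V) : V :=
  if Odd (L v) ∧ I v = 1 then v else if Odd (L v) ∧ I v = 0 then σ.symm v else
    if Odd (I v) then σ.symm v else σ v

variable {σ I L}

theorem fI_cases (v : V) : fI σ I L v = v ∨ fI σ I L v = σ v ∨ fI σ I L v = σ.symm v := by
  unfold fI
  split_ifs <;> simp

theorem gI_cases (v : V) : gI σ I L v = v ∨ gI σ I L v = σ v ∨ gI σ I L v = σ.symm v := by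
  unfold gI
  split_ifs <;> simp

variable (hlt : ∀ v, I v < L v) (hL : ∀ v, L (σ v) = L v)
  (hI : ∀ v, I (σ v) = if I v + 1 = L v then 0 else I v + 1)

include hL in
theorem L_symm (v : V) : L (σ.symm v) = L v := by
  have := hL (σ.symm v)
  rwa [σ.apply_symm_apply, eq_comm] at this

include hlt hL hI in
theorem I_symm (v : V) : I (σ.symm v) = if I v = 0 then L v - 1 else I v - 1 := by
  have h1 := hI (σ.symm v)
  have h2 := hlt (σ.symm v)
  rw [σ.apply_symm_apply, L_symm hL] at h1
  rw [L_symm hL] at h2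
  split_ifs at h1 ⊢ <;> omega

include hlt hL hI in
theorem fI_fI (v : V) : fI σ I L (fI σ I L v) = v := by
  have hI' := I_symm hlt hL hI v
  have hL' := L_symm hL v
  have hv := hlt v
  by_cases h1 : Odd (L v) ∧ I v = 0
  · have e : fI σ I L v = v := by unfold fI; rw [if_pos h1]
    rw [e, e]
  · by_cases h2 : Odd (I v)
    · have e : fI σ I L v = σ v := by unfold fI; rw [if_neg h1, if_pos h2]
      rw [e]
      have h3 := hI v
      have h4 : ¬ (Odd (L (σ v)) ∧ I (σ v) = 0) := by
        rw [hL, h3]
        rintro ⟨h5, h6⟩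
        split_ifs at h6 with h7
        · rw [← h7] at h5
          exact absurd h5 (by simp [Nat.odd_add_one, h2])
      have h5 : ¬ Odd (I (σ v)) := by
        rw [h3]
        split_ifs with h7
        · simp
        · simp [Nat.odd_add_one, h2]
      unfold fI
      rw [if_neg h4, if_neg h5, σ.symm_apply_apply]
    · have e : fI σ I L v = σ.symm v := by unfold fI; rw [if_neg h1, if_neg h2]
      rw [e]
      have h2' : Even (I v) := Nat.not_odd_iff_even.mp h2
      have h4 : ¬ (Odd (L (σ.symm v)) ∧ I (σ.symm v) = 0) := by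
        rw [hL', hI']
        rintro ⟨h5, h6⟩
        split_ifs at h6 with h7
        · exact h1 ⟨h5, h7⟩
        · have h8 : I v = 1 := by omega
          rw [h8] at h2
          exact h2 (by decide)
      have h5 : Odd (I (σ.symm v)) := by
        rw [hI']
        split_ifs with h7
        · have h8 : ¬ Odd (L v) := fun h => h1 ⟨h, h7⟩
          have h9 : Even (L v) := Nat.not_odd_iff_even.mp h8
          rcases h9 with ⟨a, ha⟩
          exact ⟨a - 1, by omega⟩
        · rcases h2' with ⟨a, ha⟩
          exact ⟨a - 1, by omega⟩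
      unfold fI
      rw [if_neg h4, if_pos h5, σ.apply_symm_apply]

variable (h3 : ∀ v, Odd (L v) → 3 ≤ L v)

include hlt hL hI h3 in
theorem gI_gI (v : V) : gI σ I L (gI σ I L v) = v := by
  have hI' := I_symm hlt hL hI v
  have hL' := L_symm hL v
  have hv := hlt v
  by_cases h1 : Odd (L v) ∧ I v = 1
  · have e : gI σ I L v = v := by unfold gI; rw [if_pos h1]
    rw [e, e]
  · by_cases h2 : Odd (L v) ∧ I v = 0
    · have e : gI σ I L v = σ.symm v := by unfold gI; rw [if_neg h1, if_pos h2]
      rw [e]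
      have h4 := h3 v h2.1
      rw [if_pos h2.2] at hI'
      obtain ⟨a, ha⟩ := h2.1
      have h5 : ¬ (Odd (L (σ.symm v)) ∧ I (σ.symm v) = 1) := by
        rw [hL', hI']
        rintro ⟨_, h6⟩
        omega
      have h6 : ¬ (Odd (L (σ.symm v)) ∧ I (σ.symm v) = 0) := by
        rw [hL', hI']
        rintro ⟨_, h6⟩
        omega
      have h7 : ¬ Odd (I (σ.symm v)) := by
        rw [hI', Nat.not_odd_iff_even]
        exact ⟨a, by omega⟩
      unfold gI
      rw [if_neg h5, if_neg h6, if_neg h7, σ.apply_symm_apply]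
    · by_cases h4 : Odd (I v)
      · have e : gI σ I L v = σ.symm v := by
          unfold gI; rw [if_neg h1, if_neg h2, if_pos h4]
        rw [e]
        obtain ⟨a, ha⟩ := h4
        have h0 : ¬ I v = 0 := by omega
        rw [if_neg h0] at hI'
        have h5 : ¬ (Odd (L (σ.symm v)) ∧ I (σ.symm v) = 1) := by
          rw [hL', hI']
          rintro ⟨_, h6⟩
          omega
        have h6 : ¬ (Odd (L (σ.symm v)) ∧ I (σ.symm v) = 0) := by
          rw [hL', hI']
          rintro ⟨h6, h7⟩
          exact h1 ⟨h6, by omega⟩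
        have h7 : ¬ Odd (I (σ.symm v)) := by
          rw [hI', Nat.not_odd_iff_even]
          exact ⟨a, by omega⟩
        unfold gI
        rw [if_neg h5, if_neg h6, if_neg h7, σ.apply_symm_apply]
      · have e : gI σ I L v = σ v := by
          unfold gI; rw [if_neg h1, if_neg h2, if_neg h4]
        rw [e]
        have h8 := hI v
        obtain ⟨a, ha⟩ := Nat.not_odd_iff_even.mp h4
        by_cases h9 : I v + 1 = L v
        · rw [if_pos h9] at h8
          have h10 : Odd (L v) := ⟨a, by omega⟩
          have h5 : ¬ (Odd (L (σ v)) ∧ I (σ v) = 1) := by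
            rw [h8]
            rintro ⟨_, h⟩
            omega
          have h6 : Odd (L (σ v)) ∧ I (σ v) = 0 := ⟨by rw [hL]; exact h10, h8⟩
          unfold gI
          rw [if_neg h5, if_pos h6, σ.symm_apply_apply]
        · rw [if_neg h9] at h8
          have h5 : ¬ (Odd (L (σ v)) ∧ I (σ v) = 1) := by
            rw [h8, hL]
            rintro ⟨h, h'⟩
            exact h2 ⟨h, by omega⟩
          have h6 : ¬ (Odd (L (σ v)) ∧ I (σ v) = 0) := by
            rw [h8]
            rintro ⟨_, h⟩
            omega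
          have h7 : Odd (I (σ v)) := ⟨a, by omega⟩
          unfold gI
          rw [if_neg h5, if_neg h6, if_pos h7, σ.symm_apply_apply]

variable (hσ1 : ∀ v, σ v ≠ v) (hσ2 : ∀ v, σ (σ v) ≠ v)

include hσ1 in
theorem symm_ne (v : V) : σ.symm v ≠ v := by
  intro h
  apply hσ1 v
  conv_lhs => rw [← h]
  exact σ.apply_symm_apply v

include hσ2 in
theorem apply_ne_symm (v : V) : σ v ≠ σ.symm v := by
  intro h
  apply hσ2 v
  rw [h]
  exact σ.apply_symm_apply v

include hσ1 in
theorem fI_fix (v : V) : fI σ I L v = v ↔ Odd (L v) ∧ I v = 0 := by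
  unfold fI
  split_ifs with h1 h2
  · exact ⟨fun _ => h1, fun _ => rfl⟩
  · exact ⟨fun h => absurd h (hσ1 v), fun h => absurd h h1⟩
  · exact ⟨fun h => absurd h (symm_ne hσ1 v), fun h => absurd h h1⟩

include hσ1 in
theorem gI_fix (v : V) : gI σ I L v = v ↔ Odd (L v) ∧ I v = 1 := by
  unfold gI
  split_ifs with h1 h2 h3
  · exact ⟨fun _ => h1, fun _ => rfl⟩
  · exact ⟨fun h => absurd h (symm_ne hσ1 v), fun h => absurd h h1⟩
  · exact ⟨fun h => absurd h (symm_ne hσ1 v), fun h => absurd h h1⟩
  · exact ⟨fun h => absurd h (hσ1 v), fun h => absurd h h1⟩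

include hσ1 hσ2 in
theorem fI_ne_gI (v : V) : fI σ I L v ≠ gI σ I L v := by
  have a1 := hσ1 v
  have a2 := symm_ne hσ1 v
  have a3 := apply_ne_symm hσ2 v
  by_cases h1 : Odd (L v) ∧ I v = 0
  · have h2 : ¬ (Odd (L v) ∧ I v = 1) := by
      rintro ⟨_, h⟩
      have := h1.2
      omega
    unfold fI gI
    rw [if_pos h1, if_neg h2, if_pos h1]
    exact fun h => a2 h.symm
  · by_cases h2 : Odd (L v) ∧ I v = 1
    · have h3 : Odd (I v) := by rw [h2.2]; decide
      unfold fI gI
      rw [if_neg h1, if_pos h3, if_pos h2]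
      exact a1
    · unfold fI gI
      rw [if_neg h1, if_neg h2, if_neg h1]
      split_ifs with h3
      · exact a3
      · exact fun h => a3 h.symm

theorem apply_mem (v : V) (h : ¬ (Odd (L v) ∧ I v = 0)) :
    σ v = fI σ I L v ∨ σ v = gI σ I L v := by
  by_cases h1 : Odd (I v)
  · left
    unfold fI
    rw [if_neg h, if_pos h1]
  · right
    have h2 : ¬ (Odd (L v) ∧ I v = 1) := by
      rintro ⟨_, h3⟩
      rw [h3] at h1
      exact h1 (by decide)
    unfold gI
    rw [if_neg h2, if_neg h, if_neg h1]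

end Abstract

section TwoInvolutions

variable {V : Type*} [Fintype V]

/-- two involutions, the first one without fixed points: the component of a fixed point `z` of the
second one contains exactly one more fixed point of it -/
theorem two_involutions (μ f : V → V) (hμμ : ∀ v, μ (μ v) = v) (hμ : ∀ v, μ v ≠ v)
    (hff : ∀ v, f (f v) = v) (z : V) (hz : f z = z) :
    ∃ (K : Set V) (z' : V), z ∈ K ∧ z' ∈ K ∧ z' ≠ z ∧ f z' = z' ∧
      (∀ v ∈ K, μ v ∈ K ∧ f v ∈ K) ∧ (∀ v ∈ K, f v = v → v = z ∨ v = z') ∧
      (∀ f' : V → V, (∀ v ∈ K, f' v = f v) → Conn μ f' z z') := by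
  set T : V → V := fun v => f (μ v) with hT
  have hTinj : Injective T := by
    intro a b hab
    have h1 : f (f (μ a)) = f (f (μ b)) := congrArg f hab
    rw [hff, hff] at h1
    have h2 := congrArg μ h1
    rwa [hμμ, hμμ] at h2
  set n := minimalPeriod T z with hn
  have hnpos : 0 < n := minimalPeriod_pos_of_mem_periodicPts (hTinj.mem_periodicPts z)
  have hTn : T^[n] z = z := iterate_minimalPeriod
  have hit : ∀ i, Injective T^[i] := fun i => hTinj.iterate i
  -- reflection
  have hrefl : ∀ i, T^[i] (f (T^[i] z)) = z := by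
    intro i
    induction i with
    | zero => simpa using hz
    | succ i ih =>
      rw [iterate_succ_apply, iterate_succ_apply']
      have h1 : T (f (T (T^[i] z))) = f (T^[i] z) := by
        show f (μ (f (f (μ (T^[i] z))))) = f (T^[i] z)
        rw [hff, hμμ]
      rw [h1, ih]
  have hmod : ∀ i, ∃ j < n, T^[j] z = T^[i] z := fun i =>
    ⟨i % n, Nat.mod_lt _ hnpos, iterate_mod_minimalPeriod_eq⟩
  have hfK : ∀ i ≤ n, f (T^[i] z) = T^[n - i] z := by
    intro i hi
    apply hit i
    rw [hrefl, ← iterate_add_apply]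
    have : i + (n - i) = n := by omega
    rw [this, hTn]
  -- parity
  have heven : Even n := by
    rw [← Nat.not_odd_iff_even]
    rintro ⟨k, hk⟩
    have h1 : f (T^[k] z) = T^[k + 1] z := by
      rw [hfK k (by omega)]
      congr 1
      omega
    rw [iterate_succ_apply'] at h1
    have h2 : f (f (T^[k] z)) = f (f (μ (T^[k] z))) := congrArg f h1
    rw [hff, hff] at h2
    exact hμ _ h2.symm
  obtain ⟨k, hk⟩ := heven
  have hk0 : 0 < k := by omega
  refine ⟨{v | ∃ i, T^[i] z = v}, T^[k] z, ⟨0, rfl⟩, ⟨k, rfl⟩, ?_, ?_, ?_, ?_, ?_⟩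
  · intro h
    have h1 : T^[k] z = T^[0] z := h
    rw [iterate_eq_iterate_iff_of_lt_minimalPeriod (by omega) hnpos] at h1
    omega
  · rw [hfK k (by omega)]
    congr 1
    omega
  · have hf : ∀ v, (∃ i, T^[i] z = v) → ∃ i, T^[i] z = f v := by
      rintro v ⟨i, rfl⟩
      obtain ⟨j, hj, e⟩ := hmod i
      rw [← e]
      exact ⟨n - j, (hfK j hj.le).symm⟩
    rintro v ⟨i, rfl⟩
    refine ⟨?_, hf _ ⟨i, rfl⟩⟩
    have h1 := hf (T^[i + 1] z) ⟨i + 1, rfl⟩
    rw [iterate_succ_apply'] at h1
    have h2 : f (T (T^[i] z)) = μ (T^[i] z) := hff _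
    rw [h2] at h1
    exact h1
  · rintro v ⟨i, rfl⟩ hv
    obtain ⟨j, hj, e⟩ := hmod i
    rw [← e] at hv ⊢
    rw [hfK j hj.le] at hv
    rcases Nat.eq_zero_or_pos j with h0 | h0
    · left
      rw [h0]
      rfl
    · right
      rw [iterate_eq_iterate_iff_of_lt_minimalPeriod (by omega) hj] at hv
      congr 1
      omega
  · intro f' hf'
    have hμK : ∀ i, ∃ j, T^[j] z = μ (T^[i] z) := by
      intro i
      obtain ⟨j, hj, e⟩ := hmod (i + 1)
      refine ⟨n - j, ?_⟩
      rw [← hfK j hj.le, e, iterate_succ_apply']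
      exact hff _
    have hstep : ∀ i, Conn μ f' z (T^[i] z) := by
      intro i
      induction i with
      | zero => exact Relation.EqvGen.refl _
      | succ i ih =>
        refine Relation.EqvGen.trans _ _ _ ih ?_
        refine Relation.EqvGen.trans _ (μ (T^[i] z)) _
          (Relation.EqvGen.rel _ _ (Or.inl rfl)) ?_
        refine Relation.EqvGen.rel _ _ (Or.inr ?_)
        rw [iterate_succ_apply', hf' _ (hμK i)]
    exact hstep k

end TwoInvolutions

theorem conn_closed {V : Type*} {r f : V → V} (hr : ∀ v, r (r v) = v) (hf : ∀ v, f (f v) = v)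
    {K : Set V} (hK : ∀ v ∈ K, r v ∈ K ∧ f v ∈ K) {u v : V} (h : Conn r f u v) :
    u ∈ K ↔ v ∈ K := by
  induction h with
  | rel a b hab =>
    rcases hab with rfl | rfl
    · refine ⟨fun h => (hK a h).1, fun h => ?_⟩
      have := (hK _ h).1
      rwa [hr] at this
    · refine ⟨fun h => (hK a h).2, fun h => ?_⟩
      have := (hK _ h).2
      rwa [hf] at this
  | refl a => exact Iff.rfl
  | symm a b _ ih => exact ih.symm
  | trans a b c _ _ ih1 ih2 => exact ih1.trans ih2

theorem choice {V : Type*} [Fintype V] (G : SimpleGraph V) (σ : Equiv.Perm V) (μ : V → V)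
    (hμμ : ∀ v, μ (μ v) = v) (hμ : ∀ v, μ v ≠ v)
    (hμσ : ∀ v, μ v ≠ σ v) (hσ1 : ∀ v, σ v ≠ v) (hσ2 : ∀ v, σ (σ v) ≠ v)
    (hadj : ∀ a b, G.Adj a b ↔ b = μ a ∨ b = σ a ∨ a = σ b)
    (hconn : ∀ S : Set V, S.Nonempty → (∀ v ∈ S, μ v ∈ S ∧ σ v ∈ S) → ∀ v, v ∈ S)
    (c c' : V) (hc : Odd (Function.minimalPeriod σ c)) (hc' : Odd (Function.minimalPeriod σ c'))
    (hcc : ¬ σ.SameCycle c c')
    (heven : ∀ v, ¬ σ.SameCycle c v → ¬ σ.SameCycle c' v → Even (Function.minimalPeriod σ v)) :
    ∃ (f g : V → V) (z w z' w' : V), Data G μ f g z w z' w' := by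
  classical
  -- the vertex z
  obtain ⟨z, hz, hμz⟩ : ∃ z, σ.SameCycle c z ∧ ¬ σ.SameCycle c (μ z) := by
    by_contra hcon
    push Not at hcon
    exact hcc (hconn {v | σ.SameCycle c v} ⟨c, Equiv.Perm.SameCycle.refl _ _⟩
      (fun v hv => ⟨hcon v hv, Equiv.Perm.SameCycle.apply_right hv⟩) c')
  -- representatives
  let rep0 : V → V := fun v => (Quotient.out (s := Equiv.Perm.SameCycle.setoid σ)
    (Quotient.mk (Equiv.Perm.SameCycle.setoid σ) v))
  have hrep0 : ∀ v, σ.SameCycle (rep0 v) v := fun v =>
    Quotient.exact (s := Equiv.Perm.SameCycle.setoid σ) (Quotient.out_eq _)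
  have hrep0' : ∀ v, rep0 (σ v) = rep0 v := by
    intro v
    have : Quotient.mk (Equiv.Perm.SameCycle.setoid σ) (σ v) =
        Quotient.mk (Equiv.Perm.SameCycle.setoid σ) v :=
      Quotient.sound (s := Equiv.Perm.SameCycle.setoid σ)
        (Equiv.Perm.sameCycle_apply_left.mpr (Equiv.Perm.SameCycle.refl _ _))
    show Quotient.out _ = Quotient.out _
    rw [this]
  let rep : V → V → V := fun z' v => if σ.SameCycle c v then z else
    if σ.SameCycle c' v then z' else rep0 v
  have hrep : ∀ z', σ.SameCycle c' z' → ∀ v, σ.SameCycle (rep z' v) v := by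
    intro z' hz' v
    show σ.SameCycle (if σ.SameCycle c v then z else if σ.SameCycle c' v then z' else rep0 v) v
    split_ifs with h1 h2
    · exact hz.symm.trans h1
    · exact hz'.symm.trans h2
    · exact hrep0 v
  have hrep' : ∀ z' v, rep z' (σ v) = rep z' v := by
    intro z' v
    show (if σ.SameCycle c (σ v) then z else if σ.SameCycle c' (σ v) then z' else rep0 (σ v)) =
      (if σ.SameCycle c v then z else if σ.SameCycle c' v then z' else rep0 v)
    simp only [Equiv.Perm.sameCycle_apply_right, hrep0']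
  -- indices
  let I : V → V → ℕ := fun z' v => ix σ (rep z' v) v
  let L : V → ℕ := ln σ
  have hL : ∀ v, L (σ v) = L v := ln_apply σ
  have hlt : ∀ z', σ.SameCycle c' z' → ∀ v, I z' v < L v := by
    intro z' hz' v
    have := ix_lt σ (hrep z' hz' v)
    rwa [← ln_eq σ (hrep z' hz' v)] at this
  have hI : ∀ z', σ.SameCycle c' z' → ∀ v,
      I z' (σ v) = if I z' v + 1 = L v then 0 else I z' v + 1 := by
    intro z' hz' v
    show ix σ (rep z' (σ v)) (σ v) = _
    rw [hrep']
    exact ix_apply σ (hrep z' hz' v)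
  have h3 : ∀ v, Odd (L v) → 3 ≤ L v := by
    intro v hv
    have h1 : L v ≠ 1 := by
      intro h
      have h2 : σ^[L v] v = v := iterate_minimalPeriod
      rw [h] at h2
      exact hσ1 v h2
    obtain ⟨a, ha⟩ := hv
    omega
  have hodd : ∀ v, Odd (L v) → σ.SameCycle c v ∨ σ.SameCycle c' v := by
    intro v hv
    by_contra hcon
    push Not at hcon
    exact Nat.not_odd_iff_even.mpr (heven v hcon.1 hcon.2) hv
  have hLc : ∀ v, σ.SameCycle c v → Odd (L v) := by
    intro v hv
    show Odd (ln σ v)
    rw [ln_eq σ hv]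
    exact hc
  have hLc' : ∀ v, σ.SameCycle c' v → Odd (L v) := by
    intro v hv
    show Odd (ln σ v)
    rw [ln_eq σ hv]
    exact hc'
  have hnot : ∀ v, σ.SameCycle c v → ¬ σ.SameCycle c' v := fun v h h' => hcc (h.trans h'.symm)
  have hIc : ∀ z' v, σ.SameCycle c v → I z' v = ix σ z v := by
    intro z' v hv
    show ix σ (if σ.SameCycle c v then z else _) v = _
    rw [if_pos hv]
  have hIc' : ∀ z' v, σ.SameCycle c' v → I z' v = ix σ z' v := by
    intro z' v hv
    have h1 : ¬ σ.SameCycle c v := fun h => hnot v h hv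
    show ix σ (if σ.SameCycle c v then z else if σ.SameCycle c' v then z' else _) v = _
    rw [if_neg h1, if_pos hv]
  have hIo : ∀ z' z'' v, ¬ σ.SameCycle c' v → I z' v = I z'' v := by
    intro z' z'' v hv
    show ix σ (if σ.SameCycle c v then z else if σ.SameCycle c' v then z' else _) v =
      ix σ (if σ.SameCycle c v then z else if σ.SameCycle c' v then z'' else _) v
    rw [if_neg hv, if_neg hv]
  -- the points with index 0 on the odd cycles
  have hI0 : ∀ z', σ.SameCycle c' z' → ∀ v, (Odd (L v) ∧ I z' v = 0) ↔ v = z ∨ v = z' := by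
    intro z' hz' v
    constructor
    · rintro ⟨h1, h2⟩
      rcases hodd v h1 with h | h
      · left
        rw [hIc z' v h] at h2
        have := iterate_ix σ (hz.symm.trans h)
        rw [h2] at this
        exact this.symm
      · right
        rw [hIc' z' v h] at h2
        have := iterate_ix σ (hz'.symm.trans h)
        rw [h2] at this
        exact this.symm
    · rintro (rfl | rfl)
      · exact ⟨hLc _ hz, by rw [hIc _ _ hz, ix_self]⟩
      · exact ⟨hLc' _ hz', by rw [hIc' _ _ hz', ix_self]⟩
  have hI1 : ∀ z', σ.SameCycle c' z' → ∀ v, (Odd (L v) ∧ I z' v = 1) ↔ v = σ z ∨ v = σ z' := by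
    intro z' hz' v
    have hs := I_symm (hlt z' hz') hL (hI z' hz') v
    have hLs := L_symm (σ := σ) hL v
    constructor
    · rintro ⟨h1, h2⟩
      rw [h2, if_neg (by norm_num)] at hs
      have h4 := (hI0 z' hz' (σ.symm v)).mp ⟨by rw [hLs]; exact h1, hs⟩
      rcases h4 with h4 | h4
      · left; rw [← h4, σ.apply_symm_apply]
      · right; rw [← h4, σ.apply_symm_apply]
    · intro h
      have h4 : ∀ u, (Odd (L u) ∧ I z' u = 0) → Odd (L (σ u)) ∧ I z' (σ u) = 1 := by
        rintro u ⟨h5, h6⟩
        have h7 := h3 u h5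
        refine ⟨by rw [hL]; exact h5, ?_⟩
        rw [hI z' hz' u, h6, if_neg (by omega)]
      rcases h with rfl | rfl
      · exact h4 _ ((hI0 z' hz' z).mpr (Or.inl rfl))
      · exact h4 _ ((hI0 z' hz' z').mpr (Or.inr rfl))
  -- cycles are preserved
  have hfc : ∀ z' v u, σ.SameCycle u v → σ.SameCycle u (fI σ (I z') L v) := by
    intro z' v u h
    rcases fI_cases (σ := σ) (I := I z') (L := L) v with e | e | e <;> rw [e]
    · exact h
    · exact h.apply_right
    · exact Equiv.Perm.sameCycle_symm_apply_right.mpr h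
  have hgc : ∀ z' v u, σ.SameCycle u v → σ.SameCycle u (gI σ (I z') L v) := by
    intro z' v u h
    rcases gI_cases (σ := σ) (I := I z') (L := L) v with e | e | e <;> rw [e]
    · exact h
    · exact h.apply_right
    · exact Equiv.Perm.sameCycle_symm_apply_right.mpr h
  -- first version of f
  have hcc' : σ.SameCycle c' c' := Equiv.Perm.SameCycle.refl _ _
  let f0 : V → V := fun v => if σ.SameCycle c' v then v else fI σ (I c') L v
  have hf0c : ∀ v, ¬ σ.SameCycle c' v → ¬ σ.SameCycle c' (fI σ (I c') L v) := by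
    intro v hv h
    apply hv
    have := hfc c' _ c' h
    rwa [fI_fI (hlt c' hcc') hL (hI c' hcc')] at this
  have hf0f0 : ∀ v, f0 (f0 v) = v := by
    intro v
    by_cases hv : σ.SameCycle c' v
    · have e : f0 v = v := if_pos hv
      rw [e, e]
    · have e : f0 v = fI σ (I c') L v := if_neg hv
      have e2 : f0 (fI σ (I c') L v) = fI σ (I c') L (fI σ (I c') L v) := if_neg (hf0c v hv)
      rw [e, e2, fI_fI (hlt c' hcc') hL (hI c' hcc')]
  have hzn : ¬ σ.SameCycle c' z := hnot z hz
  have hf0z : f0 z = z := by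
    have e : f0 z = fI σ (I c') L z := if_neg hzn
    rw [e, fI_fix hσ1]
    exact (hI0 c' hcc' z).mpr (Or.inl rfl)
  obtain ⟨K, z', hzK, hz'K, hz'ne, hz'f, hKcl, hKfix, hKconn⟩ :=
    two_involutions μ f0 hμμ hμ hf0f0 z hf0z
  have hz' : σ.SameCycle c' z' := by
    by_contra h
    have e : f0 z' = fI σ (I c') L z' := if_neg h
    rw [e, fI_fix hσ1, hI0 c' hcc'] at hz'f
    rcases hz'f with h1 | h1
    · exact hz'ne h1
    · exact h (h1 ▸ hcc')
  -- the final functions
  set f : V → V := fI σ (I z') L with hfdef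
  set g : V → V := gI σ (I z') L with hgdef
  have hff : ∀ v, f (f v) = v := fI_fI (hlt z' hz') hL (hI z' hz')
  have hgg : ∀ v, g (g v) = v := gI_gI (hlt z' hz') hL (hI z' hz') h3
  have hffix : ∀ v, f v = v ↔ v = z ∨ v = z' := fun v =>
    (fI_fix hσ1 v).trans (hI0 z' hz' v)
  have hgfix : ∀ v, g v = v ↔ v = σ z ∨ v = σ z' := fun v =>
    (gI_fix hσ1 v).trans (hI1 z' hz' v)
  have hfK : ∀ v ∈ K, f v = f0 v := by
    intro v hv
    by_cases h : σ.SameCycle c' v
    · have e : f0 v = v := if_pos h
      rcases hKfix v hv e with h1 | h1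
      · exact absurd (h1 ▸ h) hzn
      · rw [e, hffix]
        exact Or.inr h1
    · have e : f0 v = fI σ (I c') L v := if_neg h
      rw [e]
      show fI σ (I z') L v = fI σ (I c') L v
      unfold fI
      rw [hIo z' c' v h]
  have hKcl' : ∀ v ∈ K, μ v ∈ K ∧ f v ∈ K := by
    intro v hv
    refine ⟨(hKcl v hv).1, ?_⟩
    rw [hfK v hv]
    exact (hKcl v hv).2
  -- strips
  have hstripcl : ∀ u v, Conn g f u v → (σ.SameCycle c' u ↔ σ.SameCycle c' v) := by
    intro u v h
    exact conn_closed (K := {v | σ.SameCycle c' v}) hgg hff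
      (fun v hv => ⟨hgc z' v c' hv, hfc z' v c' hv⟩) h
  have hstripcl2 : ∀ u v, Conn g f u v → (σ.SameCycle c u ↔ σ.SameCycle c v) := by
    intro u v h
    exact conn_closed (K := {v | σ.SameCycle c v}) hgg hff
      (fun v hv => ⟨hgc z' v c hv, hfc z' v c hv⟩) h
  have happ : ∀ v, v ≠ z → v ≠ z' → σ v = f v ∨ σ v = g v := by
    intro v h1 h2
    apply apply_mem
    rw [hI0 z' hz']
    rintro (h | h)
    · exact h1 h
    · exact h2 h
  -- walking along an odd cycle
  have hwalk : ∀ y, y = z ∨ y = z' → Conn g f y (σ y) := by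
    intro y hy
    have hy0 := (hI0 z' hz' y).mpr hy
    have hidx : ∀ j, j + 1 < L y → I z' (σ^[j + 1] y) = j + 1 := by
      intro j
      induction j with
      | zero =>
        intro h
        show I z' (σ y) = 1
        rw [hI z' hz' y, hy0.2, if_neg (by omega)]
      | succ j ih =>
        intro h
        have h1 := ih (by omega)
        rw [iterate_succ_apply', hI z' hz', h1]
        have h2 : L (σ^[j + 1] y) = L y := ln_iterate σ y (j + 1)
        rw [h2, if_neg (by omega)]
    have hreach : ∀ j, j + 1 ≤ L y → Conn g f (σ y) (σ^[j + 1] y) := by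
      intro j
      induction j with
      | zero => intro _; exact Relation.EqvGen.refl _
      | succ j ih =>
        intro h
        refine Relation.EqvGen.trans _ _ _ (ih (by omega)) ?_
        have h1 := hidx j (by omega)
        have h2 : ¬ (Odd (L (σ^[j + 1] y)) ∧ I z' (σ^[j + 1] y) = 0) := by
          rw [h1]
          rintro ⟨_, h⟩
          omega
        have e : σ^[j + 1 + 1] y = σ (σ^[j + 1] y) := iterate_succ_apply' _ _ _
        rw [e]
        rcases apply_mem (σ := σ) (I := I z') (L := L) _ h2 with h4 | h4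
        · exact Relation.EqvGen.rel _ _ (Or.inr h4)
        · exact Relation.EqvGen.rel _ _ (Or.inl h4)
    have h1 : L y - 1 + 1 = L y := by
      have : 0 < L y := ln_pos σ y
      omega
    have h2 := hreach (L y - 1) (by omega)
    rw [h1] at h2
    have h4 : σ^[L y] y = y := iterate_minimalPeriod
    rw [h4] at h2
    exact Relation.EqvGen.symm _ _ h2
  have hμs : ∀ v, μ v ≠ σ.symm v := by
    intro v h
    have h1 : σ (μ v) = v := by rw [h, σ.apply_symm_apply]
    apply hμσ (μ v)
    rw [hμμ, h1]
  refine ⟨f, g, z, σ z, z', σ z', ?_⟩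
  constructor
  · intro a b hab
    rw [hadj] at hab
    rcases hab with h | h | h
    · exact Or.inl h
    · by_cases h1 : a = z
      · subst h1; right; right; right; left; exact ⟨rfl, h⟩
      · by_cases h2 : a = z'
        · subst h2; right; right; right; right; right; left; exact ⟨rfl, h⟩
        · rcases happ a h1 h2 with h5 | h5
          · right; left; rw [h, h5]
          · right; right; left; rw [h, h5]
    · by_cases h1 : b = z
      · subst h1; right; right; right; right; left; exact ⟨h, rfl⟩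
      · by_cases h2 : b = z'
        · subst h2; right; right; right; right; right; right; exact ⟨h, rfl⟩
        · rcases happ b h1 h2 with h5 | h5
          · right; left; rw [h, h5, hff]
          · right; right; left; rw [h, h5, hgg]
  · exact hμμ
  · exact hff
  · exact hgg
  · exact hμ
  · intro v
    rcases fI_cases (σ := σ) (I := I z') (L := L) v with e | e | e
    · show μ v ≠ fI σ (I z') L v
      rw [e]; exact hμ v
    · show μ v ≠ fI σ (I z') L v
      rw [e]; exact hμσ v
    · show μ v ≠ fI σ (I z') L v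
      rw [e]; exact hμs v
  · intro v
    rcases gI_cases (σ := σ) (I := I z') (L := L) v with e | e | e
    · show μ v ≠ gI σ (I z') L v
      rw [e]; exact hμ v
    · show μ v ≠ gI σ (I z') L v
      rw [e]; exact hμσ v
    · show μ v ≠ gI σ (I z') L v
      rw [e]; exact hμs v
  · exact fI_ne_gI hσ1 hσ2
  · exact hffix
  · exact hgfix
  · exact hwalk z (Or.inl rfl)
  · exact hwalk z' (Or.inr rfl)
  · intro h
    exact hzn ((hstripcl _ _ h).mpr hz')
  · intro h
    exact hμz ((hstripcl2 _ _ h).mp hz)
  · exact hKconn f hfK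
  · intro v h1 h2
    have h4 : v ∈ K := (conn_closed hμμ hff hKcl' h1).mp hzK
    have h5 : σ.SameCycle c' v := (hstripcl _ _ h2).mp hz'
    have h6 : f0 v = v := if_pos h5
    rcases hKfix v h4 h6 with h7 | h7
    · exact absurd (h7 ▸ h5) hzn
    · exact h7
  · intro S hS hcl
    apply hconn S hS
    intro v hv
    refine ⟨(hcl v hv).1, ?_⟩
    by_cases h1 : v = z ∨ v = z'
    · exact (conn_closed hgg hff (fun u hu => ⟨(hcl u hu).2.2, (hcl u hu).2.1⟩)
        (hwalk v h1)).mp hv
    · push Not at h1
      rcases happ v h1.1 h1.2 with h | h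
      · rw [h]; exact (hcl v hv).2.1
      · rw [h]; exact (hcl v hv).2.2

end Pool.Agent.Lib.MP_a17342_co
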