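import Mathlib

/-!
# Straight-line RAC drawings: definitions
-/

set_option autoImplicit false

namespace Pool.Agent.Lib.MP_a17342_co

/-- `p` is a straight-line RAC drawing of `G`: distinct points, no vertex on an edge it is not an
end of, and any two edges without common end whose segments meet are perpendicular. -/
def IsRAC {V : Type*} (G : SimpleGraph V) (p : V → ℝ × ℝ) : Prop :=
  Function.Injective p ∧
    (∀ a b c : V, G.Adj a b → c ≠ a → c ≠ b → p c ∉ segment ℝ (p a) (p b)) ∧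
    (∀ a b c d : V, G.Adj a b → G.Adj c d → a ≠ c → a ≠ d → b ≠ c → b ≠ d →
      (segment ℝ (p a) (p b) ∩ segment ℝ (p c) (p d)).Nonempty →
      ((p b).1 - (p a).1) * ((p d).1 - (p c).1) +
        ((p b).2 - (p a).2) * ((p d).2 - (p c).2) = 0)

/-- the component relation of two involutions -/
def Conn {V : Type*} (r f : V → V) : V → V → Prop :=
  Relation.EqvGen (fun u v => v = r u ∨ v = f u)

/-- the boxes spanned by `a, b` and by `c, d` are weakly separated by a horizontal or a vertical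
line -/
def Sep {V : Type*} (x y : V → ℤ) (a b c d : V) : Prop :=
  (max (x a) (x b) ≤ min (x c) (x d) ∨ max (x c) (x d) ≤ min (x a) (x b)) ∨
    (max (y a) (y b) ≤ min (y c) (y d) ∨ max (y c) (y d) ≤ min (y a) (y b))

/-- `x` has no value strictly between `x a` and `x b` -/
def Tight {V : Type*} (x : V → ℤ) (a b : V) : Prop :=
  ∀ v, x v ≤ min (x a) (x b) ∨ max (x a) (x b) ≤ x v

/-- Combinatorial data of a drawing: rows are the pairs `{v, μ v}`, columns the pairs `{v, g v}`,
links the pairs `{v, f v}`; `(z, w)` and `(z', w')` are the two far links. -/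
structure Data {V : Type*} (G : SimpleGraph V) (μ f g : V → V) (z w z' w' : V) : Prop where
  adj : ∀ a b, G.Adj a b → b = μ a ∨ b = f a ∨ b = g a ∨ (a = z ∧ b = w) ∨ (a = w ∧ b = z) ∨
    (a = z' ∧ b = w') ∨ (a = w' ∧ b = z')
  μμ : ∀ v, μ (μ v) = v
  ff : ∀ v, f (f v) = v
  gg : ∀ v, g (g v) = v
  μne : ∀ v, μ v ≠ v
  μf : ∀ v, μ v ≠ f v
  μg : ∀ v, μ v ≠ g v
  fg : ∀ v, f v ≠ g v
  ffix : ∀ v, f v = v ↔ v = z ∨ v = z'
  gfix : ∀ v, g v = v ↔ v = w ∨ v = w'
  /-- `z` and `w` are in the same strip -/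
  zw : Conn g f z w
  zw' : Conn g f z' w'
  /-- the strips of `z` and `z'` are different -/
  zz : ¬ Conn g f z z'
  /-- the partner of `z` is in another strip -/
  μz : ¬ Conn g f z (μ z)
  /-- `z` and `z'` are in the same block -/
  bz : Conn μ f z z'
  /-- the block of `z` meets the strip of `z'` only in `z'` -/
  bz' : ∀ v, Conn μ f z v → Conn g f z' v → v = z'
  /-- connectedness -/
  conn : ∀ S : Set V, S.Nonempty → (∀ v ∈ S, μ v ∈ S ∧ f v ∈ S ∧ g v ∈ S) → ∀ v, v ∈ S

/-- order properties of the coordinates -/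
structure Lay {V : Type*} (μ f g : V → V) (z w z' w' : V) (x y : V → ℤ) : Prop where
  row : ∀ u v, y u = y v ↔ v = u ∨ v = μ u
  col : ∀ u v, x u = x v ↔ v = u ∨ v = g u
  tight : ∀ u, f u ≠ u → Tight x u (f u) ∨ Tight y u (f u)
  sepF : ∀ u v, f u ≠ u → f v ≠ v → v ≠ u → v ≠ f u → Sep x y u (f u) v (f v)
  sepH : ∀ u v, f u ≠ u → v ≠ u → v ≠ f u → μ v ≠ u → μ v ≠ f u → Sep x y u (f u) v (μ v)
  sepV : ∀ u v, f u ≠ u → v ≠ u → v ≠ f u → g v ≠ u → g v ≠ f u → Sep x y u (f u) v (g v)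
  /-- `w` is the leftmost vertex -/
  left : ∀ v, v ≠ w → x w < x v
  /-- `w'` is the rightmost vertex -/
  right : ∀ v, v ≠ w' → x v < x w'
  /-- the row of `z` is the top row -/
  top : ∀ v, v ≠ z → v ≠ μ z → y v < y z
  μzx : x z < x (μ z)
  /-- the strip of `z` consists of the columns up to that of `z` -/
  strip : ∀ v, x v ≤ x z → x (f v) ≤ x z
  zz : x z < x z'
  strip' : ∀ v, x z' ≤ x v → x z' ≤ x (f v)
  low' : ∀ v, x z' ≤ x v → v ≠ z' → y v < y z'

end Pool.Agent.Lib.MP_a17342_co
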