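import Pool.Agent.Lib.MP_a17342_co.Defs

/-!
# Geometric realisation of a layout

Take `p v = (x v, y v)`, except `p w = (-L, y w)` and `p w' = (L, y w')` with `L` large.
Edges `{v, μ v}` horizontal, `{v, g v}` vertical, links `{v, f v}` free, `(z,w)`, `(z',w')` far links.

* Moving `w` to `-L` and `w'` to `L` keeps all order relations of `x` (`left`, `right`).
* No vertex on a foreign edge: rows/columns have at most two vertices; links are tight in `x` or `y`
  (a point of the segment with the `x` (resp. `y`) of an end is that end).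
* link / other edge: `Sep` in one coordinate: a common point has in that coordinate the value of an
  end of the link, so it is an end of the link, which would lie on a foreign edge.
* far link `(z, w)`, from `(-L, y w)` to `(x z, y z)`: let `m = min_{v ≠ w} x v`.  For `L` large the
  far link has height `> y z - 1` for all `x >= m`.  Every edge disjoint from `{z, w}` lies in
  `x >= m` and either in `y <= y z - 1` or in `x > x z` (rows: `top`; columns: a vertex with
  `x v < x z` is not `μ z` (`μzx`), so `y v < y z`; links: `strip`).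
* far link `(z', w')`, from `(x z', y z')` down to `(L, y w')`: let `m' = max_{v ≠ w'} x v`.  For
  `L` large its height is `> y z' - 1` for `x <= m'`.  Every edge disjoint from `{z', w'}` lies in
  `x <= m'` and: rows have height `> y z'` or `<= y z' - 1`; columns and links lie in `x < x z'` or
  in `y <= y z' - 1` (`strip'`, `low'`).
-/

set_option autoImplicit false

namespace Pool.Agent.Lib.MP_a17342_co

/-! ## Segments -/

lemma seg_param {p q r : ℝ × ℝ} (h : r ∈ segment ℝ p q) :
    ∃ t : ℝ, 0 ≤ t ∧ t ≤ 1 ∧ r.1 = p.1 + t * (q.1 - p.1) ∧ r.2 = p.2 + t * (q.2 - p.2) := by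
  rw [segment_eq_image'] at h
  obtain ⟨t, ht, rfl⟩ := h
  exact ⟨t, ht.1, ht.2, by simp, by simp⟩

lemma seg_fst_le {p q r : ℝ × ℝ} (h : r ∈ segment ℝ p q) : r.1 ≤ max p.1 q.1 := by
  obtain ⟨t, h0, h1, h2, _⟩ := seg_param h
  rw [h2]
  nlinarith [le_max_left p.1 q.1, le_max_right p.1 q.1]

lemma le_seg_fst {p q r : ℝ × ℝ} (h : r ∈ segment ℝ p q) : min p.1 q.1 ≤ r.1 := by
  obtain ⟨t, h0, h1, h2, _⟩ := seg_param h
  rw [h2]
  nlinarith [min_le_left p.1 q.1, min_le_right p.1 q.1]

lemma seg_snd_le {p q r : ℝ × ℝ} (h : r ∈ segment ℝ p q) : r.2 ≤ max p.2 q.2 := by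
  obtain ⟨t, h0, h1, _, h2⟩ := seg_param h
  rw [h2]
  nlinarith [le_max_left p.2 q.2, le_max_right p.2 q.2]

lemma le_seg_snd {p q r : ℝ × ℝ} (h : r ∈ segment ℝ p q) : min p.2 q.2 ≤ r.2 := by
  obtain ⟨t, h0, h1, _, h2⟩ := seg_param h
  rw [h2]
  nlinarith [min_le_left p.2 q.2, min_le_right p.2 q.2]

lemma seg_end_fst {p q r : ℝ × ℝ} (h : r ∈ segment ℝ p q) (hpq : p.1 ≠ q.1) (hr : r.1 = p.1) :
    r = p := by
  obtain ⟨t, h0, h1, h2, h3⟩ := seg_param h
  have h4 : t * (q.1 - p.1) = 0 := by linarith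
  have h5 : t = 0 := by
    rcases mul_eq_zero.mp h4 with h | h
    · exact h
    · exact absurd (by linarith) hpq
  rw [h5] at h3
  exact Prod.ext hr (by rw [h3]; ring)

lemma seg_end_snd {p q r : ℝ × ℝ} (h : r ∈ segment ℝ p q) (hpq : p.2 ≠ q.2) (hr : r.2 = p.2) :
    r = p := by
  obtain ⟨t, h0, h1, h2, h3⟩ := seg_param h
  have h4 : t * (q.2 - p.2) = 0 := by linarith
  have h5 : t = 0 := by
    rcases mul_eq_zero.mp h4 with h | h
    · exact h
    · exact absurd (by linarith) hpq
  rw [h5] at h2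
  exact Prod.ext (by rw [h2]; ring) hr

/-- a point of the segment whose first coordinate is extremal or outside is an end -/
lemma seg_extreme_fst {p q r : ℝ × ℝ} (h : r ∈ segment ℝ p q) (hpq : p.1 ≠ q.1)
    (hr : r.1 ≤ min p.1 q.1 ∨ max p.1 q.1 ≤ r.1) : r = p ∨ r = q := by
  have h' : r ∈ segment ℝ q p := by rw [segment_symm]; exact h
  have h1 := seg_fst_le h
  have h2 := le_seg_fst h
  rcases hr with hr | hr
  · rcases min_choice p.1 q.1 with hm | hm
    · exact Or.inl (seg_end_fst h hpq (by linarith))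
    · exact Or.inr (seg_end_fst h' hpq.symm (by linarith))
  · rcases max_choice p.1 q.1 with hm | hm
    · exact Or.inl (seg_end_fst h hpq (by linarith))
    · exact Or.inr (seg_end_fst h' hpq.symm (by linarith))

lemma seg_extreme_snd {p q r : ℝ × ℝ} (h : r ∈ segment ℝ p q) (hpq : p.2 ≠ q.2)
    (hr : r.2 ≤ min p.2 q.2 ∨ max p.2 q.2 ≤ r.2) : r = p ∨ r = q := by
  have h' : r ∈ segment ℝ q p := by rw [segment_symm]; exact h
  have h1 := seg_snd_le h
  have h2 := le_seg_snd h
  rcases hr with hr | hr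
  · rcases min_choice p.2 q.2 with hm | hm
    · exact Or.inl (seg_end_snd h hpq (by linarith))
    · exact Or.inr (seg_end_snd h' hpq.symm (by linarith))
  · rcases max_choice p.2 q.2 with hm | hm
    · exact Or.inl (seg_end_snd h hpq (by linarith))
    · exact Or.inr (seg_end_snd h' hpq.symm (by linarith))

/-! ## Near edges -/

/-- rows, columns and links -/
def Near {V : Type*} (μ f g : V → V) (a b : V) : Prop :=
  b ≠ a ∧ (b = μ a ∨ b = f a ∨ b = g a)

section

variable {V : Type*} {G : SimpleGraph V} {μ f g : V → V} {z w z' w' : V} {x y : V → ℤ}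

/-- transfer of separation to the real coordinates -/
lemma sep_real {X Y : V → ℝ} (hX : ∀ u v, x u ≤ x v → X u ≤ X v)
    (hY : ∀ u v, y u ≤ y v → Y u ≤ Y v) {a b c d : V} (h : Sep x y a b c d) :
    (max (X a) (X b) ≤ min (X c) (X d) ∨ max (X c) (X d) ≤ min (X a) (X b)) ∨
    (max (Y a) (Y b) ≤ min (Y c) (Y d) ∨ max (Y c) (Y d) ≤ min (Y a) (Y b)) := by
  unfold Sep at h
  simp only [max_le_iff, le_min_iff] at h ⊢
  rcases h with (h | h) | (h | h)
  · exact Or.inl (Or.inl ⟨⟨hX _ _ h.1.1, hX _ _ h.1.2⟩, ⟨hX _ _ h.2.1, hX _ _ h.2.2⟩⟩)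
  · exact Or.inl (Or.inr ⟨⟨hX _ _ h.1.1, hX _ _ h.1.2⟩, ⟨hX _ _ h.2.1, hX _ _ h.2.2⟩⟩)
  · exact Or.inr (Or.inl ⟨⟨hY _ _ h.1.1, hY _ _ h.1.2⟩, ⟨hY _ _ h.2.1, hY _ _ h.2.2⟩⟩)
  · exact Or.inr (Or.inr ⟨⟨hY _ _ h.1.1, hY _ _ h.1.2⟩, ⟨hY _ _ h.2.1, hY _ _ h.2.2⟩⟩)

/-- a common point of a link and of an edge separated from it is an end of the link -/
lemma sep_common {X Y : V → ℝ} {a b c d : V} {q : ℝ × ℝ} (hXab : X a ≠ X b) (hYab : Y a ≠ Y b)
    (h : (max (X a) (X b) ≤ min (X c) (X d) ∨ max (X c) (X d) ≤ min (X a) (X b)) ∨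
      (max (Y a) (Y b) ≤ min (Y c) (Y d) ∨ max (Y c) (Y d) ≤ min (Y a) (Y b)))
    (h1 : q ∈ segment ℝ (X a, Y a) (X b, Y b)) (h2 : q ∈ segment ℝ (X c, Y c) (X d, Y d)) :
    q = (X a, Y a) ∨ q = (X b, Y b) := by
  have e1 := seg_fst_le h1
  have e2 := le_seg_fst h1
  have e3 := seg_snd_le h1
  have e4 := le_seg_snd h1
  have e5 := seg_fst_le h2
  have e6 := le_seg_fst h2
  have e7 := seg_snd_le h2
  have e8 := le_seg_snd h2
  simp only at e1 e2 e3 e4 e5 e6 e7 e8
  rcases h with (h | h) | (h | h)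
  · exact seg_extreme_fst h1 hXab (Or.inr (h.trans e6))
  · exact seg_extreme_fst h1 hXab (Or.inl (e5.trans h))
  · exact seg_extreme_snd h1 hYab (Or.inr (h.trans e8))
  · exact seg_extreme_snd h1 hYab (Or.inl (e7.trans h))

variable (D : Data G μ f g z w z' w') (L : Lay μ f g z w z' w' x y)

include D L

lemma x_f_ne {a : V} (h : f a ≠ a) : x a ≠ x (f a) := by
  intro h1
  rcases (L.col a (f a)).mp h1 with h2 | h2
  · exact h h2
  · exact D.fg a h2

lemma y_f_ne {a : V} (h : f a ≠ a) : y a ≠ y (f a) := by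
  intro h1
  rcases (L.row a (f a)).mp h1 with h2 | h2
  · exact h h2
  · exact D.μf a h2.symm

/-- two near edges without common end, the first being a link, are separated -/
lemma near_sep {a c d : V} (ha : f a ≠ a) (hcd : Near μ f g c d) (h1 : c ≠ a) (h2 : c ≠ f a)
    (h3 : d ≠ a) (h4 : d ≠ f a) : Sep x y a (f a) c d := by
  rcases hcd with ⟨hne, rfl | rfl | rfl⟩
  · exact L.sepH a c ha h1 h2 h3 h4
  · exact L.sepF a c ha hne h1 h2
  · exact L.sepV a c ha h1 h2 h3 h4

variable {X Y : V → ℝ} (hX : ∀ u v, X u ≤ X v ↔ x u ≤ x v) (hY : ∀ v, Y v = y v)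

include hX hY

lemma Xeq (u v : V) : X u = X v ↔ x u = x v := by
  constructor
  · intro h
    exact le_antisymm ((hX u v).mp h.le) ((hX v u).mp h.ge)
  · intro h
    exact le_antisymm ((hX u v).mpr h.le) ((hX v u).mpr h.ge)

omit D L hX in
lemma Yeq (u v : V) : Y u = Y v ↔ y u = y v := by
  rw [hY, hY, Int.cast_inj]

omit D L hX in
lemma Yle (u v : V) (h : y u ≤ y v) : Y u ≤ Y v := by
  rw [hY, hY]; exact_mod_cast h

/-- the positions are distinct -/
lemma pos_inj : Function.Injective (fun v => (X v, Y v)) := by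
  intro a b hab
  have h1 : X a = X b := congrArg Prod.fst hab
  have h2 : Y a = Y b := congrArg Prod.snd hab
  rw [Xeq D L hX hY] at h1
  rw [Yeq hY] at h2
  rcases (L.col a b).mp h1 with h3 | h3
  · exact h3.symm
  · rcases (L.row a b).mp h2 with h4 | h4
    · exact h4.symm
    · exact absurd (h4.symm.trans h3) (D.μg a)

/-- no vertex on a foreign near edge -/
lemma near_vertex {a b c : V} (hab : Near μ f g a b) (hca : c ≠ a) (hcb : c ≠ b) :
    (X c, Y c) ∉ segment ℝ (X a, Y a) (X b, Y b) := by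
  intro h
  have e1 := seg_fst_le h
  have e2 := le_seg_fst h
  have e3 := seg_snd_le h
  have e4 := le_seg_snd h
  simp only at e1 e2 e3 e4
  rcases hab with ⟨hne, rfl | rfl | rfl⟩
  · have h1 : Y a = Y (μ a) := (Yeq hY _ _).mpr ((L.row a (μ a)).mpr (Or.inr rfl))
    rw [← h1, max_self] at e3
    rw [← h1, min_self] at e4
    have h2 : y a = y c := (Yeq hY _ _).mp (le_antisymm e4 e3)
    rcases (L.row a c).mp h2 with h3 | h3
    · exact hca h3
    · exact hcb h3
  · have h1 : X a ≠ X (f a) := fun h' => x_f_ne D L hne ((Xeq D L hX hY _ _).mp h')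
    have h2 : Y a ≠ Y (f a) := fun h' => y_f_ne D L hne ((Yeq hY _ _).mp h')
    have h3 : (X c, Y c) = (X a, Y a) ∨ (X c, Y c) = (X (f a), Y (f a)) := by
      rcases L.tight a hne with h3 | h3
      · refine seg_extreme_fst h h1 ?_
        rcases h3 c with h4 | h4
        · left
          simp only [le_min_iff] at h4 ⊢
          exact ⟨(hX _ _).mpr h4.1, (hX _ _).mpr h4.2⟩
        · right
          simp only [max_le_iff] at h4 ⊢
          exact ⟨(hX _ _).mpr h4.1, (hX _ _).mpr h4.2⟩
      · refine seg_extreme_snd h h2 ?_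
        rcases h3 c with h4 | h4
        · left
          simp only [le_min_iff] at h4 ⊢
          exact ⟨Yle hY _ _ h4.1, Yle hY _ _ h4.2⟩
        · right
          simp only [max_le_iff] at h4 ⊢
          exact ⟨Yle hY _ _ h4.1, Yle hY _ _ h4.2⟩
    rcases h3 with h3 | h3
    · exact hca (pos_inj D L hX hY h3)
    · exact hcb (pos_inj D L hX hY h3)
  · have h1 : X a = X (g a) := (Xeq D L hX hY _ _).mpr ((L.col a (g a)).mpr (Or.inr rfl))
    rw [← h1, max_self] at e1
    rw [← h1, min_self] at e2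
    have h2 : x a = x c := (Xeq D L hX hY _ _).mp (le_antisymm e2 e1)
    rcases (L.col a c).mp h2 with h3 | h3
    · exact hca h3
    · exact hcb h3

/-- a link meets no near edge without common end -/
lemma link_near {a c d : V} {q : ℝ × ℝ} (ha : f a ≠ a) (hcd : Near μ f g c d) (h1 : c ≠ a)
    (h2 : c ≠ f a) (h3 : d ≠ a) (h4 : d ≠ f a)
    (hq1 : q ∈ segment ℝ (X a, Y a) (X (f a), Y (f a)))
    (hq2 : q ∈ segment ℝ (X c, Y c) (X d, Y d)) : False := by
  have hsep := sep_real (fun u v => (hX u v).mpr) (Yle hY) (near_sep D L ha hcd h1 h2 h3 h4)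
  have hXa : X a ≠ X (f a) := fun h' => x_f_ne D L ha ((Xeq D L hX hY _ _).mp h')
  have hYa : Y a ≠ Y (f a) := fun h' => y_f_ne D L ha ((Yeq hY _ _).mp h')
  rcases sep_common hXa hYa hsep hq1 hq2 with h | h
  · rw [h] at hq2
    exact near_vertex D L hX hY hcd h1.symm h3.symm hq2
  · rw [h] at hq2
    exact near_vertex D L hX hY hcd h2.symm h4.symm hq2

/-- two near edges -/
lemma near_near {a b c d : V} {q : ℝ × ℝ} (hab : Near μ f g a b) (hcd : Near μ f g c d)
    (h1 : a ≠ c) (h2 : a ≠ d) (h3 : b ≠ c) (h4 : b ≠ d)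
    (hq1 : q ∈ segment ℝ (X a, Y a) (X b, Y b))
    (hq2 : q ∈ segment ℝ (X c, Y c) (X d, Y d)) :
    (X b - X a) * (X d - X c) + (Y b - Y a) * (Y d - Y c) = 0 := by
  have hab' := hab
  have hcd' := hcd
  rcases hab with ⟨hne, hb | hb | hb⟩
  · rcases hcd with ⟨hne', hd | hd | hd⟩
    · exfalso
      have e3 := seg_snd_le hq1
      have e4 := le_seg_snd hq1
      have e7 := seg_snd_le hq2
      have e8 := le_seg_snd hq2
      simp only at e3 e4 e7 e8
      have h5 : Y a = Y b := (Yeq hY _ _).mpr ((L.row a b).mpr (Or.inr hb))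
      have h6 : Y c = Y d := (Yeq hY _ _).mpr ((L.row c d).mpr (Or.inr hd))
      rw [← h5, max_self] at e3
      rw [← h5, min_self] at e4
      rw [← h6, max_self] at e7
      rw [← h6, min_self] at e8
      have h7 : y a = y c := (Yeq hY _ _).mp (by linarith)
      rcases (L.row a c).mp h7 with h8 | h8
      · exact h1 h8.symm
      · exact h3 (hb.trans h8.symm)
    · exfalso
      subst hd
      exact link_near D L hX hY hne' hab' h1 h2 h3 h4 hq2 hq1
    · have h5 : Y a = Y b := (Yeq hY _ _).mpr ((L.row a b).mpr (Or.inr hb))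
      have h6 : X c = X d := (Xeq D L hX hY _ _).mpr ((L.col c d).mpr (Or.inr hd))
      rw [h5, h6]; ring
  · exfalso
    subst hb
    exact link_near D L hX hY hne hcd' h1.symm h3.symm h2.symm h4.symm hq1 hq2
  · rcases hcd with ⟨hne', hd | hd | hd⟩
    · have h5 : X a = X b := (Xeq D L hX hY _ _).mpr ((L.col a b).mpr (Or.inr hb))
      have h6 : Y c = Y d := (Yeq hY _ _).mpr ((L.row c d).mpr (Or.inr hd))
      rw [h5, h6]; ring
    · exfalso
      subst hd
      exact link_near D L hX hY hne' hab' h1 h2 h3 h4 hq2 hq1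
    · exfalso
      have e3 := seg_fst_le hq1
      have e4 := le_seg_fst hq1
      have e7 := seg_fst_le hq2
      have e8 := le_seg_fst hq2
      simp only at e3 e4 e7 e8
      have h5 : X a = X b := (Xeq D L hX hY _ _).mpr ((L.col a b).mpr (Or.inr hb))
      have h6 : X c = X d := (Xeq D L hX hY _ _).mpr ((L.col c d).mpr (Or.inr hd))
      rw [← h5, max_self] at e3
      rw [← h5, min_self] at e4
      rw [← h6, max_self] at e7
      rw [← h6, min_self] at e8
      have h7 : x a = x c := (Xeq D L hX hY _ _).mp (by linarith)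
      rcases (L.col a c).mp h7 with h8 | h8
      · exact h1 h8.symm
      · exact h3 (hb.trans h8.symm)

/-! ## Far links -/

omit D hX in
/-- low vertices -/
lemma Y_le_sub_one {v u : V} (h : y v < y u) : Y v ≤ Y u - 1 := by
  have h1 : y v + 1 ≤ y u := h
  have h2 : ((y v : ℝ)) + 1 ≤ y u := by exact_mod_cast h1
  rw [hY, hY]
  linarith

lemma X_lt {u v : V} (h : x u < x v) : X u < X v := by
  rw [← not_le] at h ⊢
  exact fun h' => h ((hX _ _).mp h')

/-- a vertex different from `z` is low or to the right -/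
lemma vertex_far1 {v : V} (hv : v ≠ z) (hx : x v ≤ x z) : Y v ≤ Y z - 1 := by
  apply Y_le_sub_one L hY
  apply L.top v hv
  rintro rfl
  exact absurd L.μzx (not_lt.mpr hx)

lemma near_far1 {a b : V} {q : ℝ × ℝ} {m : ℝ} (hm : ∀ v, v ≠ w → m ≤ X v)
    (hab : Near μ f g a b) (haz : a ≠ z) (haw : a ≠ w) (hbz : b ≠ z) (hbw : b ≠ w)
    (hq : q ∈ segment ℝ (X a, Y a) (X b, Y b)) :
    m ≤ q.1 ∧ (q.2 ≤ Y z - 1 ∨ X z < q.1) := by
  have e1 := seg_fst_le hq
  have e2 := le_seg_fst hq
  have e3 := seg_snd_le hq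
  have e4 := le_seg_snd hq
  simp only at e1 e2 e3 e4
  refine ⟨(le_min (hm a haw) (hm b hbw)).trans e2, ?_⟩
  rcases hab with ⟨hne, hb | hb | hb⟩
  · left
    have h5 : y a = y b := (L.row a b).mpr (Or.inr hb)
    have h6 : y a < y z := by
      apply L.top a haz
      intro h
      rw [h, D.μμ] at hb
      exact hbz hb
    have h7 := Y_le_sub_one L hY h6
    have h8 := Y_le_sub_one L hY (h5 ▸ h6)
    exact e3.trans (max_le h7 h8)
  · by_cases h5 : x a ≤ x z
    · left
      have h6 := L.strip a h5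
      rw [← hb] at h6
      exact e3.trans (max_le (vertex_far1 D L hX hY haz h5) (vertex_far1 D L hX hY hbz h6))
    · right
      have h6 : ¬ x b ≤ x z := by
        intro h7
        have h8 := L.strip b h7
        rw [hb, D.ff] at h8
        exact h5 h8
      exact lt_of_lt_of_le (lt_min (X_lt D L hX hY (not_le.mp h5))
        (X_lt D L hX hY (not_le.mp h6))) e2
  · have h6 : x a = x b := (L.col a b).mpr (Or.inr hb)
    by_cases h5 : x a ≤ x z
    · left
      exact e3.trans (max_le (vertex_far1 D L hX hY haz h5)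
        (vertex_far1 D L hX hY hbz (h6 ▸ h5)))
    · right
      exact lt_of_lt_of_le (lt_min (X_lt D L hX hY (not_le.mp h5))
        (X_lt D L hX hY (not_le.mp (h6 ▸ h5)))) e2

lemma near_far2 {a b : V} {q : ℝ × ℝ} {m : ℝ} (hm : ∀ v, v ≠ w' → X v ≤ m)
    (hab : Near μ f g a b) (haz : a ≠ z') (haw : a ≠ w') (hbz : b ≠ z') (hbw : b ≠ w')
    (hq : q ∈ segment ℝ (X a, Y a) (X b, Y b)) :
    q.1 ≤ m ∧ (Y z' < q.2 ∨ q.2 ≤ Y z' - 1 ∨ q.1 < X z') := by
  have e1 := seg_fst_le hq
  have e2 := le_seg_fst hq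
  have e3 := seg_snd_le hq
  have e4 := le_seg_snd hq
  simp only at e1 e2 e3 e4
  refine ⟨e1.trans (max_le (hm a haw) (hm b hbw)), ?_⟩
  rcases hab with ⟨hne, hb | hb | hb⟩
  · have h5 : y a = y b := (L.row a b).mpr (Or.inr hb)
    rcases lt_trichotomy (y a) (y z') with h6 | h6 | h6
    · right; left
      exact e3.trans (max_le (Y_le_sub_one L hY h6) (Y_le_sub_one L hY (h5 ▸ h6)))
    · exfalso
      rcases (L.row a z').mp h6 with h7 | h7
      · exact haz h7.symm
      · exact hbz (hb.trans h7.symm)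
    · left
      have h7 : y z' < y b := h5 ▸ h6
      have h8 := Y_le_sub_one L hY h6
      have h9 := Y_le_sub_one L hY h7
      refine lt_of_lt_of_le ?_ e4
      rw [lt_min_iff]
      constructor <;> linarith
  · right
    by_cases h5 : x z' ≤ x a
    · left
      have h6 := L.strip' a h5
      rw [← hb] at h6
      exact e3.trans (max_le (Y_le_sub_one L hY (L.low' a h5 haz))
        (Y_le_sub_one L hY (L.low' b h6 hbz)))
    · right
      have h6 : ¬ x z' ≤ x b := by
        intro h7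
        have h8 := L.strip' b h7
        rw [hb, D.ff] at h8
        exact h5 h8
      exact lt_of_le_of_lt e1 (max_lt (X_lt D L hX hY (not_le.mp h5))
        (X_lt D L hX hY (not_le.mp h6)))
  · right
    have h6 : x a = x b := (L.col a b).mpr (Or.inr hb)
    by_cases h5 : x z' ≤ x a
    · left
      exact e3.trans (max_le (Y_le_sub_one L hY (L.low' a h5 haz))
        (Y_le_sub_one L hY (L.low' b (h6 ▸ h5) hbz)))
    · right
      exact lt_of_le_of_lt e1 (max_lt (X_lt D L hX hY (not_le.mp h5))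
        (X_lt D L hX hY (not_le.mp (h6 ▸ h5))))

end

/-- the far links are nearly horizontal -/
lemma far_slope {B Λ x0 x1 y0 y1 t : ℝ} (hB : 0 ≤ B) (hx0 : |x0| ≤ B) (hy0 : |y0| ≤ B)
    (hy1 : |y1| ≤ B) (ht : 0 ≤ t) (hΛ : Λ = 4 * B ^ 2 + B + 1)
    (hx1 : x0 + t * (x1 - x0) ≤ B) (h : x1 = Λ) : y0 - 1 < y0 + t * (y1 - y0) := by
  rw [abs_le] at hx0 hy0 hy1
  rw [h, hΛ] at hx1
  have h1 : t * (4 * B ^ 2 + 1) ≤ 2 * B := by
    have h2 : t * (4 * B ^ 2 + 1) ≤ t * (4 * B ^ 2 + B + 1 - x0) := by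
      apply mul_le_mul_of_nonneg_left _ ht
      linarith
    linarith
  have h3 : t * (2 * B) < 1 := by
    by_contra h4
    push Not at h4
    have h5 : 0 ≤ 2 * B := by linarith
    nlinarith
  have h6 : t * (y0 - y1) ≤ t * (2 * B) := mul_le_mul_of_nonneg_left (by linarith) ht
  linarith

theorem geo {V : Type*} [Fintype V] (G : SimpleGraph V) (μ f g : V → V) (z w z' w' : V)
    (D : Data G μ f g z w z' w') (x y : V → ℤ) (L : Lay μ f g z w z' w' x y) :
    ∃ p : V → ℝ × ℝ, IsRAC G p := by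
  classical
  -- distinctness
  have hww : w ≠ w' := by
    rintro rfl
    exact D.zz (Relation.EqvGen.trans _ _ _ D.zw (Relation.EqvGen.symm _ _ D.zw'))
  have hdis : ∀ u v, (u = z ∨ u = z') → (v = w ∨ v = w') → u ≠ v := by
    rintro u v hu hv rfl
    have h1 := (D.ffix u).mpr hu
    have h2 := (D.gfix u).mpr hv
    exact D.fg u (h1.trans h2.symm)
  have hzw : z ≠ w := hdis _ _ (Or.inl rfl) (Or.inl rfl)
  have hzw' : z ≠ w' := hdis _ _ (Or.inl rfl) (Or.inr rfl)
  have hz'w : z' ≠ w := hdis _ _ (Or.inr rfl) (Or.inl rfl)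
  have hz'w' : z' ≠ w' := hdis _ _ (Or.inr rfl) (Or.inr rfl)
  have hzz' : z ≠ z' := by
    rintro rfl
    exact absurd L.zz (lt_irrefl _)
  -- bound
  obtain ⟨B, hB0, hBx, hBy⟩ : ∃ B : ℝ, 0 ≤ B ∧ (∀ v, |(x v : ℝ)| ≤ B) ∧
      ∀ v, |(y v : ℝ)| ≤ B := by
    refine ⟨∑ v, (|(x v : ℝ)| + |(y v : ℝ)|), Finset.sum_nonneg fun v _ => by positivity, ?_, ?_⟩
    · intro v
      have h1 : |(x v : ℝ)| ≤ |(x v : ℝ)| + |(y v : ℝ)| := by
        have := abs_nonneg (y v : ℝ)
        linarith
      refine h1.trans ?_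
      exact Finset.single_le_sum (f := fun v => |(x v : ℝ)| + |(y v : ℝ)|)
        (fun v _ => by positivity) (Finset.mem_univ v)
    · intro v
      have h1 : |(y v : ℝ)| ≤ |(x v : ℝ)| + |(y v : ℝ)| := by
        have := abs_nonneg (x v : ℝ)
        linarith
      refine h1.trans ?_
      exact Finset.single_le_sum (f := fun v => |(x v : ℝ)| + |(y v : ℝ)|)
        (fun v _ => by positivity) (Finset.mem_univ v)
  obtain ⟨Λ, hΛ⟩ : ∃ Λ : ℝ, Λ = 4 * B ^ 2 + B + 1 := ⟨_, rfl⟩
  have hΛB : B < Λ := by rw [hΛ]; nlinarith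
  set X : V → ℝ := fun v => if v = w then -Λ else if v = w' then Λ else x v with hXdef
  set Y : V → ℝ := fun v => y v with hYdef
  have hXw : X w = -Λ := by simp [hXdef]
  have hXw' : X w' = Λ := by simp [hXdef, hww.symm]
  have hXo : ∀ v, v ≠ w → v ≠ w' → X v = x v := by
    intro v h1 h2
    simp [hXdef, h1, h2]
  have hXlow : ∀ v, v ≠ w → -B ≤ X v := by
    intro v hv
    by_cases hv' : v = w'
    · rw [hv', hXw']; linarith
    · rw [hXo v hv hv']
      exact (abs_le.mp (hBx v)).1
  have hXupp : ∀ v, v ≠ w' → X v ≤ B := by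
    intro v hv
    by_cases hv' : v = w
    · rw [hv', hXw]; linarith
    · rw [hXo v hv' hv]
      exact (abs_le.mp (hBx v)).2
  have hX : ∀ u v, X u ≤ X v ↔ x u ≤ x v := by
    have hmono : ∀ u v, x u < x v → X u < X v := by
      intro u v huv
      by_cases hu : u = w
      · have hv : v ≠ w := by rintro rfl; rw [hu] at huv; exact lt_irrefl _ huv
        have := hXlow v hv
        rw [hu, hXw]; linarith
      · by_cases hv : v = w'
        · have hu' : u ≠ w' := by rintro rfl; rw [hv] at huv; exact lt_irrefl _ huv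
          have := hXupp u hu'
          rw [hv, hXw']; linarith
        · have hu' : u ≠ w' := by
            intro h
            have := L.right v hv
            rw [h] at huv
            omega
          have hv' : v ≠ w := by
            intro h
            have := L.left u hu
            rw [h] at huv
            omega
          rw [hXo u hu hu', hXo v hv' hv]
          exact_mod_cast huv
    have heq : ∀ u v, x u = x v → X u = X v := by
      intro u v huv
      by_cases hu : u = w
      · by_cases hv : v = w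
        · rw [hu, hv]
        · have := L.left v hv
          rw [hu] at huv
          omega
      · by_cases hu' : u = w'
        · by_cases hv : v = w'
          · rw [hu', hv]
          · have := L.right v hv
            rw [hu'] at huv
            omega
        · have hv : v ≠ w := by
            rintro rfl
            have := L.left u hu
            omega
          have hv' : v ≠ w' := by
            rintro rfl
            have := L.right u hu'
            omega
          rw [hXo u hu hu', hXo v hv hv', huv]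
    intro u v
    constructor
    · intro h
      by_contra h1
      exact absurd (hmono v u (not_le.mp h1)) (not_lt.mpr h)
    · intro h
      rcases lt_or_eq_of_le h with h1 | h1
      · exact (hmono u v h1).le
      · exact (heq u v h1).le
  have hY : ∀ v, Y v = y v := fun _ => rfl
  -- far links
  have far1 : ∀ q : ℝ × ℝ, q ∈ segment ℝ (X z, Y z) (X w, Y w) →
      q.1 ≤ X z ∧ (-B ≤ q.1 → Y z - 1 < q.2) := by
    intro q hq
    have hXz : X z = x z := hXo z hzw hzw'
    obtain ⟨t, ht0, ht1, h1, h2⟩ := seg_param hq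
    simp only at h1 h2
    have hbz := hBx z
    constructor
    · rw [h1, hXw]
      have h3 : -Λ - X z ≤ 0 := by
        rw [hXz]
        have := (abs_le.mp hbz).1
        linarith
      nlinarith
    · intro h3
      rw [h2]
      apply far_slope (x0 := -X z) (x1 := Λ) hB0 _ (hBy z) (hBy w) ht0 hΛ _ rfl
      · rw [abs_neg, hXz]; exact hbz
      · rw [h1, hXw] at h3
        linarith
  have far2 : ∀ q : ℝ × ℝ, q ∈ segment ℝ (X z', Y z') (X w', Y w') →
      X z' ≤ q.1 ∧ q.2 ≤ Y z' ∧ (q.1 ≤ B → Y z' - 1 < q.2) := by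
    intro q hq
    have hXz : X z' = x z' := hXo z' hz'w hz'w'
    obtain ⟨t, ht0, ht1, h1, h2⟩ := seg_param hq
    simp only at h1 h2
    have hbz := hBx z'
    refine ⟨?_, ?_, ?_⟩
    · rw [h1, hXw']
      have h3 : 0 ≤ Λ - X z' := by
        rw [hXz]
        have := (abs_le.mp hbz).2
        linarith
      nlinarith
    · have h3 : Y w' ≤ Y z' - 1 :=
        Y_le_sub_one L hY (L.low' w' (L.right z' hz'w').le hz'w'.symm)
      rw [h2]
      nlinarith
    · intro h3
      rw [h2]
      apply far_slope (x0 := X z') (x1 := Λ) hB0 _ (hBy z') (hBy w') ht0 hΛ _ rfl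
      · rw [hXz]; exact hbz
      · rw [h1, hXw'] at h3
        exact h3
  -- near edges versus far links
  have nf1 : ∀ (a b : V) (q : ℝ × ℝ), Near μ f g a b → a ≠ z → a ≠ w → b ≠ z → b ≠ w →
      q ∈ segment ℝ (X a, Y a) (X b, Y b) → q ∈ segment ℝ (X z, Y z) (X w, Y w) → False := by
    intro a b q hab h1 h2 h3 h4 hq1 hq2
    obtain ⟨h5, h6⟩ := near_far1 D L hX hY hXlow hab h1 h2 h3 h4 hq1
    obtain ⟨h7, h8⟩ := far1 q hq2
    have := h8 h5
    rcases h6 with h6 | h6 <;> linarith
  have nf2 : ∀ (a b : V) (q : ℝ × ℝ), Near μ f g a b → a ≠ z' → a ≠ w' → b ≠ z' → b ≠ w' →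
      q ∈ segment ℝ (X a, Y a) (X b, Y b) → q ∈ segment ℝ (X z', Y z') (X w', Y w') →
      False := by
    intro a b q hab h1 h2 h3 h4 hq1 hq2
    obtain ⟨h5, h6⟩ := near_far2 D L hX hY hXupp hab h1 h2 h3 h4 hq1
    obtain ⟨h7, h8, h9⟩ := far2 q hq2
    have := h9 h5
    rcases h6 with h6 | h6 | h6 <;> linarith
  have ff : ∀ q : ℝ × ℝ, q ∈ segment ℝ (X z, Y z) (X w, Y w) →
      q ∈ segment ℝ (X z', Y z') (X w', Y w') → False := by
    intro q hq1 hq2
    have h1 := (far1 q hq1).1
    have h2 := (far2 q hq2).1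
    have h3 := X_lt D L hX hY L.zz
    linarith
  -- classification of the edges
  have hclass : ∀ a b, G.Adj a b → Near μ f g a b ∨ (a = z ∧ b = w) ∨ (a = w ∧ b = z) ∨
      (a = z' ∧ b = w') ∨ (a = w' ∧ b = z') := by
    intro a b hab
    have hne : b ≠ a := hab.ne'
    rcases D.adj a b hab with h | h | h | h
    · exact Or.inl ⟨hne, Or.inl h⟩
    · exact Or.inl ⟨hne, Or.inr (Or.inl h)⟩
    · exact Or.inl ⟨hne, Or.inr (Or.inr h)⟩
    · exact Or.inr h
  have hsym : ∀ {a b : V} {q : ℝ × ℝ}, q ∈ segment ℝ (X a, Y a) (X b, Y b) →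
      q ∈ segment ℝ (X b, Y b) (X a, Y a) := by
    intro a b q h
    rw [segment_symm]; exact h
  refine ⟨fun v => (X v, Y v), pos_inj D L hX hY, ?_, ?_⟩
  · intro a b c hab hca hcb hc
    simp only at hc
    -- the position of the vertex `c` relative to far links
    have v1 : c ≠ z → c ≠ w → (X c, Y c) ∉ segment ℝ (X z, Y z) (X w, Y w) := by
      intro h1 h2 h3
      obtain ⟨h4, h5⟩ := far1 _ h3
      simp only at h4 h5
      have h6 := h5 (hXlow c h2)
      have h7 := vertex_far1 D L hX hY h1 ((hX _ _).mp h4)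
      linarith
    have v2 : c ≠ z' → c ≠ w' → (X c, Y c) ∉ segment ℝ (X z', Y z') (X w', Y w') := by
      intro h1 h2 h3
      obtain ⟨h4, h5, h6⟩ := far2 _ h3
      simp only at h4 h5 h6
      have h7 := h6 (hXupp c h2)
      have h8 := Y_le_sub_one L hY (L.low' c ((hX _ _).mp h4) h1)
      linarith
    rcases hclass a b hab with h | ⟨rfl, rfl⟩ | ⟨rfl, rfl⟩ | ⟨rfl, rfl⟩ | ⟨rfl, rfl⟩
    · exact near_vertex D L hX hY h hca hcb hc
    · exact v1 hca hcb hc
    · exact v1 hcb hca (hsym hc)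
    · exact v2 hca hcb hc
    · exact v2 hcb hca (hsym hc)
  · intro a b c d hab hcd h1 h2 h3 h4 hq
    obtain ⟨q, hq1, hq2⟩ := hq
    simp only at hq1 hq2 ⊢
    rcases hclass a b hab with h | ⟨ha, hb⟩ | ⟨ha, hb⟩ | ⟨ha, hb⟩ | ⟨ha, hb⟩ <;>
    rcases hclass c d hcd with h' | ⟨hc, hd⟩ | ⟨hc, hd⟩ | ⟨hc, hd⟩ | ⟨hc, hd⟩
    · exact near_near D L hX hY h h' h1 h2 h3 h4 hq1 hq2
    · exfalso; subst hc hd; exact nf1 a b q h h1 h2 h3 h4 hq1 hq2
    · exfalso; subst hc hd; exact nf1 a b q h h2 h1 h4 h3 hq1 (hsym hq2)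
    · exfalso; subst hc hd; exact nf2 a b q h h1 h2 h3 h4 hq1 hq2
    · exfalso; subst hc hd; exact nf2 a b q h h2 h1 h4 h3 hq1 (hsym hq2)
    · exfalso; subst ha hb; exact nf1 c d q h' h1.symm h3.symm h2.symm h4.symm hq2 hq1
    · exact absurd (ha.trans hc.symm) h1
    · exact absurd (ha.trans hd.symm) h2
    · exfalso; subst ha hb hc hd; exact ff q hq1 hq2
    · exfalso; subst ha hb hc hd; exact ff q hq1 (hsym hq2)
    · exfalso; subst ha hb; exact nf1 c d q h' h3.symm h1.symm h4.symm h2.symm hq2 (hsym hq1)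
    · exact absurd (ha.trans hd.symm) h2
    · exact absurd (ha.trans hc.symm) h1
    · exfalso; subst ha hb hc hd; exact ff q (hsym hq1) hq2
    · exfalso; subst ha hb hc hd; exact ff q (hsym hq1) (hsym hq2)
    · exfalso; subst ha hb; exact nf2 c d q h' h1.symm h3.symm h2.symm h4.symm hq2 hq1
    · exfalso; subst ha hb hc hd; exact ff q hq2 hq1
    · exfalso; subst ha hb hc hd; exact ff q (hsym hq2) hq1
    · exact absurd (ha.trans hc.symm) h1
    · exact absurd (ha.trans hd.symm) h2
    · exfalso; subst ha hb; exact nf2 c d q h' h3.symm h1.symm h4.symm h2.symm hq2 (hsym hq1)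
    · exfalso; subst ha hb hc hd; exact ff q hq2 (hsym hq1)
    · exfalso; subst ha hb hc hd; exact ff q (hsym hq2) (hsym hq1)
    · exact absurd (ha.trans hd.symm) h2
    · exact absurd (ha.trans hc.symm) h1

end Pool.Agent.Lib.MP_a17342_co
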