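import Pool.Agent.Lib.MP_a17342_co.Defs

/-!
# From a 2-factor of a graph to permutations

`G` connected and cubic, `M` a perfect matching such that `G - M` has exactly two odd components.
A finite 2-regular graph is oriented through its darts: the permutation `N (a, b) = (b, c)`, `c` the
other neighbour of `b`, has exactly two orbits in every component, reverse to each other.
-/

set_option autoImplicit false

namespace Pool.Agent.Lib.MP_a17342_co

/-- Every finite graph all of whose vertices have degree 2 has an orientation of its cycles. -/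
theorem exists_orientation {V : Type*} [Fintype V] (C : SimpleGraph V)
    (h2 : ∀ v, (C.neighborSet v).ncard = 2) :
    ∃ σ : Equiv.Perm V, (∀ a b, C.Adj a b ↔ b = σ a ∨ a = σ b) ∧ (∀ v, σ v ≠ v) ∧
      (∀ v, σ (σ v) ≠ v) ∧ (∀ a b, σ.SameCycle a b ↔ C.Reachable a b) ∧
      (∀ v, Function.minimalPeriod σ v = (C.connectedComponentMk v).supp.ncard) := by
  classical
  have h3 : ∀ v, ∃ x y, x ≠ y ∧ C.neighborSet v = {x, y} := fun v => Set.ncard_eq_two.1 (h2 v)
  choose X Y hXY hN using h3
  have hadj : ∀ v w, C.Adj v w ↔ w = X v ∨ w = Y v := by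
    intro v w
    have : w ∈ C.neighborSet v ↔ w ∈ ({X v, Y v} : Set V) := by rw [hN v]
    simpa using this
  -- the other neighbour
  let oth : V → V → V := fun b a => if a = X b then Y b else X b
  have oth_adj : ∀ b a, C.Adj b (oth b a) := by
    intro b a
    rw [hadj]
    by_cases h : a = X b
    · right; simp [oth, h]
    · left; simp [oth, h]
  have oth_ne : ∀ b a, oth b a ≠ a := by
    intro b a
    by_cases h : a = X b
    · simp only [oth, h, if_true]; exact (hXY b).symm
    · simp only [oth, h, if_false]; exact fun h' => h h'.symm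
  have oth_oth : ∀ b a, C.Adj b a → oth b (oth b a) = a := by
    intro b a hab
    rcases (hadj b a).1 hab with h | h
    · subst h
      simp [oth, (hXY b).symm]
    · subst h
      simp [oth, (hXY b).symm]
  have oth_cases : ∀ b a c, C.Adj b a → C.Adj b c → c = a ∨ c = oth b a := by
    intro b a c hab hac
    rcases (hadj b a).1 hab with h | h <;> rcases (hadj b c).1 hac with h' | h'
    · left; rw [h, h']
    · right; rw [h']; simp [oth, h]
    · right; rw [h']; simp [oth, h, (hXY b).symm]
    · left; rw [h, h']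
  -- darts
  let D := {p : V × V // C.Adj p.1 p.2}
  let N : Equiv.Perm D :=
    { toFun := fun d => ⟨(d.1.2, oth d.1.2 d.1.1), oth_adj _ _⟩
      invFun := fun d => ⟨(oth d.1.1 d.1.2, d.1.1), (oth_adj _ _).symm⟩
      left_inv := by
        rintro ⟨⟨a, b⟩, h⟩
        exact Subtype.ext (Prod.ext (oth_oth b a h.symm) rfl)
      right_inv := by
        rintro ⟨⟨a, b⟩, h⟩
        exact Subtype.ext (Prod.ext rfl (oth_oth a b h)) }
  let R : D → D := fun d => ⟨(d.1.2, d.1.1), d.2.symm⟩
  have RR : ∀ d, R (R d) = d := fun d => rfl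
  have Nd : ∀ d : D, (N d).1 = (d.1.2, oth d.1.2 d.1.1) := fun d => rfl
  have Ns : ∀ d : D, (N⁻¹ d).1 = (oth d.1.1 d.1.2, d.1.1) := fun d => rfl
  have NR : ∀ d, N⁻¹ (R d) = R (N d) := fun d => rfl
  have NpR : ∀ (k : ℕ) (d : D), (N⁻¹ ^ k) (R d) = R ((N ^ k) d) := by
    intro k
    induction k with
    | zero => intro d; rfl
    | succ k ih =>
      intro d
      rw [pow_succ, Equiv.Perm.mul_apply, NR, ih, pow_succ, Equiv.Perm.mul_apply]
  have noRev : ∀ d : D, ¬ N.SameCycle d (R d) := by
    intro d hd
    obtain ⟨k, hk⟩ := hd.exists_nat_pow_eq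
    rcases Nat.even_or_odd' k with ⟨m, rfl | rfl⟩
    · -- `N^m d` is its own reverse
      have h1 : (N ^ m) d = R ((N ^ m) d) := by
        rw [← NpR, ← hk, ← Equiv.Perm.mul_apply, two_mul, pow_add, ← mul_assoc, inv_pow,
          inv_mul_cancel, one_mul]
      have h4 := congrArg (fun e : D => e.1.1) h1
      simp only [R] at h4
      exact ((N ^ m) d).2.ne h4
    · have h1 : N ((N ^ m) d) = R ((N ^ m) d) := by
        rw [← NpR, ← hk, ← Equiv.Perm.mul_apply, ← Equiv.Perm.mul_apply,
          show 2 * m + 1 = m + (m + 1) by ring, pow_add, ← mul_assoc, inv_pow,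
          inv_mul_cancel, one_mul, pow_succ']
      have h4 := congrArg (fun e : D => e.1.2) h1
      simp only [R, Nd] at h4
      exact oth_ne _ _ h4
  -- all vertices of a component are first vertices of an orbit
  have reach : ∀ (d : D) (v : V), C.Reachable d.1.1 v → ∃ e : D, N.SameCycle d e ∧ e.1.1 = v := by
    intro d v hv
    obtain ⟨p⟩ := hv
    have key : ∀ (a b : V) (q : C.Walk a b), (∃ e : D, N.SameCycle d e ∧ e.1.1 = a) →
        ∃ e : D, N.SameCycle d e ∧ e.1.1 = b := by
      intro a b q
      induction q with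
      | nil => exact id
      | @cons u v w h q ih =>
        rintro ⟨e, he, rfl⟩
        apply ih
        rcases oth_cases e.1.1 e.1.2 v e.2 h with h5 | h5
        · exact ⟨N e, he.trans ⟨1, by simp⟩, by rw [Nd, h5]⟩
        · exact ⟨N⁻¹ e, he.trans ⟨-1, by simp⟩, by rw [Ns, h5]⟩
    exact key _ _ p ⟨d, Equiv.Perm.SameCycle.refl _ _, rfl⟩
  have reach' : ∀ (d e : D), N.SameCycle d e → C.Reachable d.1.1 e.1.1 := by
    intro d e hd
    obtain ⟨k, rfl⟩ := hd.exists_nat_pow_eq
    clear hd
    induction k with
    | zero => exact SimpleGraph.Reachable.refl _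
    | succ k ih =>
      refine ih.trans ?_
      rw [pow_succ', Equiv.Perm.mul_apply, Nd]
      exact ((N ^ k) d).2.reachable
  -- one orbit for every component
  have hbase : ∀ K : C.ConnectedComponent, ∃ d : D, C.connectedComponentMk d.1.1 = K := by
    intro K
    induction K using SimpleGraph.ConnectedComponent.ind with
    | h v => exact ⟨⟨(v, X v), (hadj v (X v)).2 (Or.inl rfl)⟩, rfl⟩
  choose base hbase using hbase
  have hτ : ∀ v : V, ∃ e : D, N.SameCycle (base (C.connectedComponentMk v)) e ∧ e.1.1 = v := by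
    intro v
    apply reach
    exact SimpleGraph.ConnectedComponent.exact (hbase (C.connectedComponentMk v))
  choose τ hτ1 hτ2 using hτ
  have hτu : ∀ (v : V) (e : D), N.SameCycle (base (C.connectedComponentMk v)) e → e.1.1 = v →
      e = τ v := by
    intro v e he hev
    have h6 : C.Adj v (τ v).1.2 := by
      have := (τ v).2
      rwa [hτ2] at this
    have h7 : C.Adj v e.1.2 := by
      have := e.2
      rwa [hev] at this
    rcases oth_cases v _ _ h6 h7 with h8 | h8
    · apply Subtype.ext
      apply Prod.ext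
      · rw [hev, hτ2]
      · exact h8
    · exfalso
      -- then `N⁻¹ (τ v) = R e`
      have h9 : N⁻¹ (τ v) = R e := by
        apply Subtype.ext
        rw [Ns, hτ2]
        simp only [R]
        rw [h8, hev]
      have h10 : N.SameCycle e (R e) := by
        rw [← h9]
        exact (he.symm.trans (hτ1 v)).trans ⟨-1, by simp⟩
      exact noRev e h10
  have mkeq : ∀ d e : D, N.SameCycle d e →
      C.connectedComponentMk d.1.1 = C.connectedComponentMk e.1.1 := fun d e h =>
    SimpleGraph.ConnectedComponent.sound (reach' d e h)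
  have τN : ∀ v, N (τ v) = τ (τ v).1.2 := by
    intro v
    apply hτu _ _ _ (by rw [Nd])
    have h11 : N.SameCycle (τ v) (N (τ v)) := ⟨1, by simp⟩
    have h12 := mkeq _ _ h11
    rw [Nd, hτ2] at h12
    simp only at h12
    rw [← h12]
    exact (hτ1 v).trans h11
  have τNi : ∀ v, N⁻¹ (τ v) = τ (N⁻¹ (τ v)).1.1 := by
    intro v
    apply hτu _ _ _ rfl
    have h11 : N.SameCycle (τ v) (N⁻¹ (τ v)) := ⟨-1, by simp⟩
    have h12 := mkeq _ _ h11
    rw [hτ2] at h12
    rw [← h12]
    exact (hτ1 v).trans h11
  let σ : Equiv.Perm V :=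
    { toFun := fun v => (τ v).1.2
      invFun := fun v => (N⁻¹ (τ v)).1.1
      left_inv := by
        intro v
        show (N⁻¹ (τ (τ v).1.2)).1.1 = v
        rw [← τN]
        have : N⁻¹ (N (τ v)) = τ v := by
          rw [← Equiv.Perm.mul_apply, inv_mul_cancel, Equiv.Perm.one_apply]
        rw [this, hτ2]
      right_inv := by
        intro v
        show (τ (N⁻¹ (τ v)).1.1).1.2 = v
        rw [← τNi, Ns]
        exact hτ2 v }
  have hσ : ∀ v, σ v = (τ v).1.2 := fun v => rfl
  have hσa : ∀ v, C.Adj v (σ v) := by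
    intro v
    have := (τ v).2
    rwa [hτ2] at this
  have hσs : ∀ v, σ.symm v = oth v (σ v) := by
    intro v
    show (N⁻¹ (τ v)).1.1 = _
    rw [Ns, hτ2, hσ]
  have adj_iff : ∀ a b, C.Adj a b ↔ b = σ a ∨ a = σ b := by
    intro a b
    constructor
    · intro h
      rcases oth_cases a _ _ (hσa a) h with h1 | h1
      · exact Or.inl h1
      · right
        rw [← hσs] at h1
        rw [h1]
        simp
    · rintro (h | h)
      · rw [h]; exact hσa a
      · rw [h]; exact (hσa b).symm
  have sc_iff : ∀ a b, σ.SameCycle a b ↔ C.Reachable a b := by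
    intro a b
    constructor
    · intro h
      obtain ⟨k, rfl⟩ := h.exists_nat_pow_eq
      clear h
      induction k with
      | zero => exact SimpleGraph.Reachable.refl _
      | succ k ih =>
        refine ih.trans ?_
        rw [pow_succ', Equiv.Perm.mul_apply]
        exact (hσa _).reachable
    · rintro ⟨p⟩
      induction p with
      | nil => exact Equiv.Perm.SameCycle.refl _ _
      | @cons u v w h q ih =>
        rcases (adj_iff _ _).1 h with h1 | h1
        · exact Equiv.Perm.SameCycle.trans ⟨1, by simp [h1]⟩ ih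
        · exact Equiv.Perm.SameCycle.trans ⟨-1, by simp [h1]⟩ ih
  refine ⟨σ, adj_iff, fun v h => ?_, fun v h => ?_, sc_iff, fun v => ?_⟩
  · have := hσa v
    rw [h] at this
    exact C.loopless.irrefl _ this
  · have h1 := congrArg (fun d : D => d.1.2) (τN v)
    simp only [Nd] at h1
    rw [hτ2] at h1
    have h3 : σ (σ v) = oth (σ v) v := h1.symm
    exact oth_ne _ _ (h3 ▸ h)
  · have h1 : (C.connectedComponentMk v).supp = MulAction.orbit (Subgroup.zpowers σ) v := by
      ext w
      rw [SimpleGraph.ConnectedComponent.mem_supp_iff, SimpleGraph.ConnectedComponent.eq,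
        MulAction.mem_orbit_iff, SimpleGraph.reachable_comm, ← sc_iff]
      constructor
      · rintro ⟨k, hk⟩
        exact ⟨⟨σ ^ k, k, rfl⟩, hk⟩
      · rintro ⟨⟨_, k, rfl⟩, hk⟩
        exact ⟨k, hk⟩
    rw [h1, ← Nat.card_coe_set_eq]
    have h5 := MulAction.minimalPeriod_eq_card (a := σ) (b := v)
    rw [Nat.card_eq_fintype_card, ← h5]
    rfl

end Pool.Agent.Lib.MP_a17342_co
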