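import Pool.Agent.Lib.MP_a17342_co.Defs

/-!
# Components of two involutions, indexed from a base point
-/

set_option autoImplicit false

namespace Pool.Agent.Lib.MP_a17342_co

variable {V : Type*} {r f : V → V}

theorem Conn.refl (v : V) : Conn r f v v := Relation.EqvGen.refl v

theorem Conn.symm {u v : V} (h : Conn r f u v) : Conn r f v u := Relation.EqvGen.symm _ _ h

theorem Conn.trans {u v w : V} (h : Conn r f u v) (h' : Conn r f v w) : Conn r f u w :=
  Relation.EqvGen.trans _ _ _ h h'

theorem conn_r (v : V) : Conn r f v (r v) := Relation.EqvGen.rel _ _ (Or.inl rfl)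

theorem conn_f (v : V) : Conn r f v (f v) := Relation.EqvGen.rel _ _ (Or.inr rfl)

/-- a set closed under both involutions contains whole components -/
theorem Conn.mem_of_closed (hr : ∀ v, r (r v) = v) (hf : ∀ v, f (f v) = v) {S : Set V}
    (hS : ∀ v ∈ S, r v ∈ S ∧ f v ∈ S) {u v : V} (h : Conn r f u v) : u ∈ S ↔ v ∈ S := by
  induction h with
  | rel a b hab =>
    rcases hab with rfl | rfl
    · exact ⟨fun h => (hS _ h).1, fun h => by have := (hS _ h).1; rwa [hr] at this⟩
    · exact ⟨fun h => (hS _ h).2, fun h => by have := (hS _ h).2; rwa [hf] at this⟩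
  | refl a => exact Iff.rfl
  | symm a b _ ih => exact ih.symm
  | trans a b c _ _ ih1 ih2 => exact ih1.trans ih2

/-- the `i`-th entry vertex, starting from `b` -/
def sq (r f : V → V) (b : V) (i : ℕ) : V := (fun v => f (r v))^[i] b

@[simp] theorem sq_zero (b : V) : sq r f b 0 = b := rfl

theorem sq_succ (b : V) (i : ℕ) : sq r f b (i + 1) = f (r (sq r f b i)) := by
  unfold sq
  rw [Function.iterate_succ_apply']

theorem conn_sq (b : V) (i : ℕ) : Conn r f b (sq r f b i) := by
  induction i with
  | zero => exact Conn.refl _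
  | succ i ih =>
    rw [sq_succ]
    exact (ih.trans (conn_r _)).trans (conn_f _)

theorem f_sq_succ (hf : ∀ v, f (f v) = v) (b : V) (i : ℕ) :
    f (sq r f b (i + 1)) = r (sq r f b i) := by
  rw [sq_succ, hf]

theorem exists_sq_period [Finite V] (hr : ∀ v, r (r v) = v) (hf : ∀ v, f (f v) = v) (b : V) :
    ∃ n, sq r f b (n + 1) = b := by
  have hinj : Function.Injective (fun v => f (r v)) := by
    intro u v h
    have h1 : r u = r v := by
      have := congrArg f h
      simpa only [hf] using this
    have := congrArg r h1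
    simpa only [hr] using this
  have hper : b ∈ Function.periodicPts (fun v => f (r v)) :=
    hinj.mem_periodicPts b
  obtain ⟨n, hn, hp⟩ := hper
  obtain ⟨m, rfl⟩ : ∃ m, n = m + 1 := ⟨n - 1, by omega⟩
  exact ⟨m, hp⟩

theorem conn_iff_sq [Finite V] (hr : ∀ v, r (r v) = v) (hf : ∀ v, f (f v) = v) {b v : V} :
    Conn r f b v ↔ ∃ i, v = sq r f b i ∨ v = r (sq r f b i) := by
  constructor
  · intro h
    have hS : ∀ v ∈ {v | ∃ i, v = sq r f b i ∨ v = r (sq r f b i)},
        r v ∈ {v | ∃ i, v = sq r f b i ∨ v = r (sq r f b i)} ∧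
          f v ∈ {v | ∃ i, v = sq r f b i ∨ v = r (sq r f b i)} := by
      rintro v ⟨i, rfl | rfl⟩
      · refine ⟨⟨i, Or.inr rfl⟩, ?_⟩
        rcases i with _ | i
        · obtain ⟨n, hn⟩ := exists_sq_period hr hf b
          refine ⟨n, Or.inr ?_⟩
          rw [sq_zero, ← f_sq_succ (r := r) hf b n, hn]
        · exact ⟨i, Or.inr (f_sq_succ hf b i)⟩
      · refine ⟨⟨i, Or.inl (hr _)⟩, ⟨i + 1, Or.inl (sq_succ b i).symm⟩⟩
    exact (Conn.mem_of_closed hr hf hS h).1 ⟨0, Or.inl rfl⟩
  · rintro ⟨i, rfl | rfl⟩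
    · exact conn_sq b i
    · exact (conn_sq b i).trans (conn_r _)

open Classical in
/-- the index of (the row of) `v`, counted from the base `b` -/
noncomputable def idx (r f : V → V) (b v : V) : ℕ :=
  if h : ∃ i, v = sq r f b i ∨ v = r (sq r f b i) then Nat.find h else 0

theorem idx_le {b v : V} {i : ℕ} (h : v = sq r f b i ∨ v = r (sq r f b i)) :
    idx r f b v ≤ i := by
  classical
  have h' : ∃ i, v = sq r f b i ∨ v = r (sq r f b i) := ⟨i, h⟩
  unfold idx
  rw [dif_pos h']
  exact Nat.find_min' h' h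

theorem idx_spec [Finite V] (hr : ∀ v, r (r v) = v) (hf : ∀ v, f (f v) = v) {b v : V}
    (h : Conn r f b v) :
    v = sq r f b (idx r f b v) ∨ v = r (sq r f b (idx r f b v)) := by
  classical
  have h' := (conn_iff_sq hr hf).1 h
  unfold idx
  rw [dif_pos h']
  exact Nat.find_spec h'

theorem idx_base (b : V) : idx r f b b = 0 := Nat.le_zero.1 (idx_le (Or.inl rfl))

theorem idx_r [Finite V] (hr : ∀ v, r (r v) = v) (hf : ∀ v, f (f v) = v) {b v : V}
    (h : Conn r f b v) : idx r f b (r v) = idx r f b v := by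
  apply le_antisymm
  · apply idx_le
    rcases idx_spec hr hf h with h1 | h1
    · right; rw [← h1]
    · left
      conv_lhs => rw [h1]
      rw [hr]
  · apply idx_le
    rcases idx_spec hr hf (h.trans (conn_r v)) with h1 | h1
    · right; rw [← h1, hr]
    · left
      have := congrArg r h1
      rwa [hr, hr] at this

theorem idx_inj [Finite V] (hr : ∀ v, r (r v) = v) (hf : ∀ v, f (f v) = v) {b u v : V}
    (hu : Conn r f b u) (hv : Conn r f b v) (h : idx r f b u = idx r f b v) : v = u ∨ v = r u := by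
  have h1 := idx_spec hr hf hu
  have h2 := idx_spec hr hf hv
  rw [h] at h1
  rcases h1 with h1 | h1 <;> rcases h2 with h2 | h2
  · left; rw [h2]; exact h1.symm
  · right; rw [h2]; exact congrArg r h1.symm
  · right
    rw [h2]
    have := congrArg r h1
    rw [hr] at this
    exact this.symm
  · left; rw [h2]; exact h1.symm

theorem idx_zero [Finite V] (hr : ∀ v, r (r v) = v) (hf : ∀ v, f (f v) = v) {b v : V}
    (h : Conn r f b v) (h0 : idx r f b v = 0) : v = b ∨ v = r b := by
  have := idx_inj hr hf (Conn.refl b) h (by rw [idx_base, h0])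
  exact this

/-- the upper end of a link that is not the closing link -/
theorem idx_adj [Finite V] (hr : ∀ v, r (r v) = v) (hf : ∀ v, f (f v) = v)
    (hrf : ∀ v, f v ≠ r v) {b u : V} (hu : Conn r f b u) (hfu : f u ≠ u)
    (hb : r b = b ∨ u ≠ b) (hle : idx r f b u ≤ idx r f b (f u)) :
    idx r f b (f u) = idx r f b u + 1 ∧ u = r (sq r f b (idx r f b u)) := by
  have key : u = r (sq r f b (idx r f b u)) := by
    rcases idx_spec hr hf hu with h1 | h1
    · rcases Nat.eq_zero_or_pos (idx r f b u) with h0 | h0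
      · rw [h0, sq_zero] at h1
        rcases hb with hb | hb
        · rw [h0, sq_zero, hb]; exact h1
        · exact absurd h1 hb
      · exfalso
        obtain ⟨j, hj⟩ : ∃ j, idx r f b u = j + 1 := ⟨idx r f b u - 1, by omega⟩
        have h2 : f u = r (sq r f b j) := by
          rw [hj] at h1
          rw [h1, f_sq_succ hf]
        have h3 := idx_le (r := r) (f := f) (Or.inr h2)
        omega
    · exact h1
  refine ⟨?_, key⟩
  have h4 : f u = sq r f b (idx r f b u + 1) := by
    rw [sq_succ, ← key]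
  have h5 := idx_le (r := r) (f := f) (Or.inl h4)
  have h6 : idx r f b (f u) ≠ idx r f b u := by
    intro h7
    rcases idx_inj hr hf hu (hu.trans (conn_f u)) h7.symm with h8 | h8
    · exact hfu h8
    · exact hrf u h8
  omega

/-- the first row of a component that meets a set closed under `f` -/
theorem topmost [Finite V] (hr : ∀ v, r (r v) = v) (hf : ∀ v, f (f v) = v)
    (hrf : ∀ v, f v ≠ r v) {b u : V} {X : Set V} (hX : ∀ v ∈ X, f v ∈ X) (hu : Conn r f b u)
    (huX : u ∈ X) (hmin : ∀ v ∈ X, Conn r f b v → idx r f b u ≤ idx r f b v)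
    (hb : r b = b ∨ b ∉ X) (hfu : f u ≠ u) :
    idx r f b (f u) = idx r f b u + 1 ∧
      ∀ v ∈ X, Conn r f b v → v ≠ u → idx r f b u + 1 ≤ idx r f b v := by
  have hub : r b = b ∨ u ≠ b := by
    rcases hb with hb | hb
    · exact Or.inl hb
    · exact Or.inr fun h => hb (h ▸ huX)
  obtain ⟨h1, h2⟩ := idx_adj hr hf hrf hu hfu hub (hmin _ (hX u huX) (hu.trans (conn_f u)))
  refine ⟨h1, fun v hv hbv hne => ?_⟩
  have h3 := hmin v hv hbv
  rcases Nat.lt_or_ge (idx r f b u) (idx r f b v) with h4 | h4
  · exact h4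
  · exfalso
    have h5 : idx r f b u = idx r f b v := le_antisymm h3 h4
    rcases idx_inj hr hf hu hbv h5 with h6 | h6
    · exact hne h6
    · have h7 : v = sq r f b (idx r f b u) := by
        rw [h6]
        conv_lhs => rw [h2]
        rw [hr]
      rcases Nat.eq_zero_or_pos (idx r f b u) with h0 | h0
      · rw [h0, sq_zero] at h7 h2
        rcases hb with hb | hb
        · rw [hb] at h2
          exact hne (h7.trans h2.symm)
        · exact hb (h7 ▸ hv)
      · obtain ⟨j, hj⟩ : ∃ j, idx r f b u = j + 1 := ⟨idx r f b u - 1, by omega⟩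
        have h8 : f v = r (sq r f b j) := by
          rw [h7, hj, f_sq_succ hf]
        have h9 := idx_le (r := r) (f := f) (Or.inr h8)
        have h10 := hmin _ (hX v hv) (hbv.trans (conn_f v))
        omega

/-- in a path component with base fixed by `r`, a vertex fixed by `f` has the largest index -/
theorem idx_le_last [Finite V] (hr : ∀ v, r (r v) = v) (hf : ∀ v, f (f v) = v) {b z v : V}
    (hb : r b = b) (hz : Conn r f b z) (hfz : f z = z) (hv : Conn r f b v) :
    idx r f b v ≤ idx r f b z := by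
  set k := idx r f b z with hk
  have hS : ∀ v ∈ {v | ∃ j ≤ k, v = sq r f b j ∨ v = r (sq r f b j)},
      r v ∈ {v | ∃ j ≤ k, v = sq r f b j ∨ v = r (sq r f b j)} ∧
        f v ∈ {v | ∃ j ≤ k, v = sq r f b j ∨ v = r (sq r f b j)} := by
    have hzk : z = r (sq r f b k) := by
      rcases idx_spec hr hf hz with h1 | h1
      · rw [← hk] at h1
        rcases Nat.eq_zero_or_pos k with h0 | h0
        · rw [h0, sq_zero] at h1 ⊢
          rw [hb]; exact h1
        · exfalso
          obtain ⟨j, hj⟩ : ∃ j, k = j + 1 := ⟨k - 1, by omega⟩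
          have h2 : z = r (sq r f b j) := by
            rw [← hfz, h1, hj, f_sq_succ hf]
          have h3 := idx_le (r := r) (f := f) (Or.inr h2)
          omega
      · rw [← hk] at h1
        exact h1
    rintro v ⟨j, hj, rfl | rfl⟩
    · refine ⟨⟨j, hj, Or.inr rfl⟩, ?_⟩
      rcases j with _ | j
      · rw [sq_zero]
        rcases Nat.eq_zero_or_pos k with h0 | h0
        · refine ⟨0, Nat.zero_le _, Or.inl ?_⟩
          rw [h0, sq_zero, hb] at hzk
          rw [sq_zero, ← hzk, hfz]
        · refine ⟨1, h0, Or.inl ?_⟩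
          rw [sq_succ, sq_zero, hb]
      · exact ⟨j, by omega, Or.inr (f_sq_succ hf b j)⟩
    · refine ⟨⟨j, hj, Or.inl (hr _)⟩, ?_⟩
      rcases Nat.lt_or_ge j k with h1 | h1
      · exact ⟨j + 1, h1, Or.inl (sq_succ b j).symm⟩
      · have : j = k := le_antisymm hj h1
        subst this
        refine ⟨k, le_rfl, Or.inr ?_⟩
        rw [← hzk, hfz]
  obtain ⟨j, hj, h⟩ := (Conn.mem_of_closed hr hf hS hv).1 ⟨0, Nat.zero_le _, Or.inl rfl⟩
  exact (idx_le h).trans hj

end Pool.Agent.Lib.MP_a17342_co
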