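import Pool.Agent.Lib.MP_a17342_co.Base

/-!
# Existence of a layout (row and column order)
-/

set_option autoImplicit false

namespace Pool.Agent.Lib.MP_a17342_co

variable {V : Type*}

/-- order data of one axis: class rank `ρ`, position `i` in the class, links that are not closing -/
structure Axis (r f : V → V) (N : ℕ) (ρ i : V → ℕ) (good : V → Prop) : Prop where
  lt : ∀ v, i v < N
  inj : ∀ u v, ρ u = ρ v → i u = i v → v = u ∨ v = r u
  ρr : ∀ v, ρ (r v) = ρ v
  ir : ∀ v, i (r v) = i v
  ρf : ∀ v, ρ (f v) = ρ v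
  goodf : ∀ u, good u → good (f u)
  adj : ∀ u, good u → i (f u) = i u + 1 ∨ i u = i (f u) + 1
  uniq : ∀ u v, good u → good v → ρ u = ρ v → i u = i v → i (f u) = i u + 1 →
    i (f v) = i v + 1 → u = v

/-- coordinate -/
def co (N : ℕ) (ρ i : V → ℕ) (v : V) : ℤ := ((ρ v * N + i v : ℕ) : ℤ)

theorem co_lt {N : ℕ} {ρ i : V → ℕ} (hlt : ∀ v, i v < N) {u v : V} (h : ρ u < ρ v) :
    co N ρ i u < co N ρ i v := by
  unfold co
  exact_mod_cast lex_lt (hlt u) h

theorem co_sub {N : ℕ} {ρ i : V → ℕ} {u v : V} (h : ρ u = ρ v) :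
    co N ρ i u - co N ρ i v = (i u : ℤ) - i v := by
  unfold co
  rw [h]
  push_cast
  ring

/-- one-dimensional weak separation -/
def Sep1 (c : V → ℤ) (a b u v : V) : Prop :=
  max (c a) (c b) ≤ min (c u) (c v) ∨ max (c u) (c v) ≤ min (c a) (c b)

namespace Axis

variable {r f : V → V} {N : ℕ} {ρ i : V → ℕ} {good : V → Prop}

theorem eq_iff (A : Axis r f N ρ i good) (u v : V) :
    co N ρ i u = co N ρ i v ↔ v = u ∨ v = r u := by
  constructor
  · intro h
    unfold co at h
    have h' : ρ u * N + i u = ρ v * N + i v := by exact_mod_cast h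
    obtain ⟨h1, h2⟩ := lex_eq (A.lt u) (A.lt v) h'
    exact A.inj u v h1 h2
  · rintro (rfl | rfl)
    · rfl
    · unfold co
      rw [A.ρr, A.ir]

theorem contig (hlt : ∀ v, i v < N) {a b u v : V} (h1 : ρ a = ρ b) (h2 : ρ u = ρ v)
    (h3 : ρ a ≠ ρ u) : Sep1 (co N ρ i) a b u v := by
  unfold Sep1
  rcases Nat.lt_or_gt_of_ne h3 with h4 | h4
  · left
    have e1 := co_lt hlt h4
    have e2 := co_lt (ρ := ρ) (i := i) (u := a) (v := v) hlt (by omega)
    have e3 := co_lt (ρ := ρ) (i := i) (u := b) (v := u) hlt (by omega)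
    have e4 := co_lt (ρ := ρ) (i := i) (u := b) (v := v) hlt (by omega)
    omega
  · right
    have e1 := co_lt hlt h4
    have e2 := co_lt (ρ := ρ) (i := i) (u := u) (v := b) hlt (by omega)
    have e3 := co_lt (ρ := ρ) (i := i) (u := v) (v := a) hlt (by omega)
    have e4 := co_lt (ρ := ρ) (i := i) (u := v) (v := b) hlt (by omega)
    omega

theorem tight (A : Axis r f N ρ i good) {u : V} (hu : good u) : Tight (co N ρ i) u (f u) := by
  intro v
  have hρ := A.ρf u
  rcases Nat.lt_trichotomy (ρ v) (ρ u) with h | h | h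
  · left
    have e1 := co_lt A.lt h
    have e2 := co_lt (ρ := ρ) (i := i) (u := v) (v := f u) A.lt (by omega)
    omega
  · have e1 := co_sub (N := N) (i := i) h
    have e2 := co_sub (N := N) (i := i) (h.trans hρ.symm)
    have e3 := A.adj u hu
    omega
  · right
    have e1 := co_lt A.lt h
    have e2 := co_lt (ρ := ρ) (i := i) (u := f u) (v := v) A.lt (by omega)
    omega

theorem sep (A : Axis r f N ρ i good) (hf : ∀ v, f (f v) = v) {u v : V} (hu : good u)
    (hv : good v) (h1 : v ≠ u) (h2 : v ≠ f u) : Sep1 (co N ρ i) u (f u) v (f v) := by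
  by_cases hρ : ρ u = ρ v
  · have a1 := A.adj u hu
    have a2 := A.adj v hv
    have e1 := co_sub (N := N) (i := i) hρ
    have e2 := co_sub (N := N) (i := i) ((A.ρf u).trans hρ)
    have e3 := co_sub (N := N) (i := i) (hρ.trans (A.ρf v).symm)
    have e4 := co_sub (N := N) (i := i) (((A.ρf u).trans hρ).trans (A.ρf v).symm)
    have hρu := A.ρf u
    have hρv := A.ρf v
    have gu := A.goodf u hu
    have gv := A.goodf v hv
    -- the two lower ends are different
    have key : min (i u) (i (f u)) ≠ min (i v) (i (f v)) := by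
      intro h
      rcases a1 with a1 | a1 <;> rcases a2 with a2 | a2
      · exact h1 (A.uniq u v hu hv hρ (by omega) a1 a2).symm
      · have := A.uniq u (f v) hu gv (by omega) (by omega) a1 (by rw [hf]; exact a2)
        apply h2
        rw [this, hf]
      · have := A.uniq (f u) v gu hv (by omega) (by omega) (by rw [hf]; exact a1) a2
        exact h2 this.symm
      · have := A.uniq (f u) (f v) gu gv (by omega) (by omega) (by rw [hf]; exact a1)
          (by rw [hf]; exact a2)
        have h3 := congrArg f this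
        rw [hf, hf] at h3
        exact h1 h3.symm
    unfold Sep1
    omega
  · exact contig A.lt (A.ρf u).symm (A.ρf v).symm hρ

end Axis

theorem layout [Fintype V] (G : SimpleGraph V) (μ f g : V → V) (z w z' w' : V)
    (D : Data G μ f g z w z' w') : ∃ x y : V → ℤ, Lay μ f g z w z' w' x y := by
  classical
  obtain ⟨-, μμ, ff, gg, μne, μf, μg, fg, ffix, gfix, zw, zw', zz, μz, bz, bz', conn⟩ := D
  have fμ : ∀ v, f v ≠ μ v := fun v => (μf v).symm
  obtain ⟨ρB, hρB1, hρB2, hρB3⟩ := exists_rank μ f g z conn
  obtain ⟨ρX, ft, hX1, hX2, hX3, hf1, hf2, hf3, hf4⟩ := exists_strip_rank μ f g z z' zz ρB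
  obtain ⟨bX, bB, H⟩ := exists_bases μ f g z w z' w' zw zw' zz bz ρB hρB1 hρB2 hρB3 ρX ft hX1
    hX2 hX3 hf1 hf2 hf3 hf4
  have gw : g w = w := (gfix w).2 (Or.inl rfl)
  have gw' : g w' = w' := (gfix w').2 (Or.inr rfl)
  have fz : f z = z := (ffix z).2 (Or.inl rfl)
  have fz' : f z' = z' := (ffix z').2 (Or.inr rfl)
  -- bound for indices
  obtain ⟨N, hN1, hN2⟩ : ∃ N : ℕ, (∀ b v, idx μ f b v < N) ∧ (∀ b v, idx g f b v < N) := by
    refine ⟨(Finset.univ.sup fun p : V × V => idx μ f p.1 p.2) +
      (Finset.univ.sup fun p : V × V => idx g f p.1 p.2) + 1, fun b v => ?_, fun b v => ?_⟩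
    · have := Finset.le_sup (f := fun p : V × V => idx μ f p.1 p.2) (Finset.mem_univ (b, v))
      simp only at this
      omega
    · have := Finset.le_sup (f := fun p : V × V => idx g f p.1 p.2) (Finset.mem_univ (b, v))
      simp only at this
      omega
  -- index functions
  let jX : V → ℕ := fun v => idx g f (bX v) v
  let iB : V → ℕ := fun v => idx μ f (bB v) v
  let iX : V → ℕ := fun v => if Conn g f z' v then N - 1 - jX v else jX v
  have iX1 : ∀ v, ¬ Conn g f z' v → iX v = jX v := fun v h => if_neg h
  have iX2 : ∀ v, Conn g f z' v → iX v = N - 1 - jX v := fun v h => if_pos h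
  have jXlt : ∀ v, jX v < N := fun v => hN2 _ _
  let goodB : V → Prop := fun u => f u ≠ u ∧ (Conn μ f z u ∨ (u ≠ bB u ∧ f u ≠ bB u))
  let goodX : V → Prop := fun u =>
    f u ≠ u ∧ (Conn g f z u ∨ Conn g f z' u ∨ (u ≠ bX u ∧ f u ≠ bX u))
  have cB : ∀ v, Conn μ f (bB v) v := fun v => (H.B2 v).symm
  have cX : ∀ v, Conn g f (bX v) v := fun v => (H.X2 v).symm
  have bBr : ∀ v, bB (μ v) = bB v := fun v => (H.B1 _ _ (conn_r v)).symm
  have bBf : ∀ v, bB (f v) = bB v := fun v => (H.B1 _ _ (conn_f v)).symm
  have bXr : ∀ v, bX (g v) = bX v := fun v => (H.X1 _ _ (conn_r v)).symm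
  have bXf : ∀ v, bX (f v) = bX v := fun v => (H.X1 _ _ (conn_f v)).symm
  have zr : ∀ {a v : V}, Conn g f a (g v) ↔ Conn g f a v := fun {a v} =>
    ⟨fun h => h.trans (conn_r v).symm, fun h => h.trans (conn_r v)⟩
  have zf : ∀ {a v : V}, Conn g f a (f v) ↔ Conn g f a v := fun {a v} =>
    ⟨fun h => h.trans (conn_f v).symm, fun h => h.trans (conn_f v)⟩
  have zrB : ∀ {a v : V}, Conn μ f a (μ v) ↔ Conn μ f a v := fun {a v} =>
    ⟨fun h => h.trans (conn_r v).symm, fun h => h.trans (conn_r v)⟩
  have zfB : ∀ {a v : V}, Conn μ f a (f v) ↔ Conn μ f a v := fun {a v} =>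
    ⟨fun h => h.trans (conn_f v).symm, fun h => h.trans (conn_f v)⟩
  have jXr : ∀ v, jX (g v) = jX v := fun v => by
    show idx g f (bX (g v)) (g v) = idx g f (bX v) v
    rw [bXr, idx_r gg ff (cX v)]
  have iBr : ∀ v, iB (μ v) = iB v := fun v => by
    show idx μ f (bB (μ v)) (μ v) = idx μ f (bB v) v
    rw [bBr, idx_r μμ ff (cB v)]
  have jXf : ∀ v, jX (f v) = idx g f (bX v) (f v) := fun v => by
    show idx g f (bX (f v)) (f v) = _
    rw [bXf]
  have iBf : ∀ v, iB (f v) = idx μ f (bB v) (f v) := fun v => by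
    show idx μ f (bB (f v)) (f v) = _
    rw [bBf]
  -- base conditions
  have hbB : ∀ u, goodB u → u ≠ bB u ∧ f u ≠ bB u := by
    rintro u ⟨h1, h2 | h2⟩
    · have e : bB u = z := (H.B1 z u h2).symm.trans H.Bz
      rw [e]
      refine ⟨fun h => h1 (by rw [h]; exact fz), fun h => h1 ?_⟩
      have := congrArg f h
      rw [ff, fz] at this
      rw [h, this]
    · exact h2
  have hbX : ∀ u, goodX u → g (bX u) = bX u ∨ (u ≠ bX u ∧ f u ≠ bX u) := by
    rintro u ⟨h1, h2 | h2 | h2⟩
    · left
      rw [(H.X1 z u h2).symm, H.Xz]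
      exact gw
    · left
      rw [(H.X1 z' u h2).symm, H.Xz']
      exact gw'
    · exact Or.inr h2
  have goodBf : ∀ u, goodB u → goodB (f u) := by
    rintro u ⟨h1, h2⟩
    refine ⟨fun h => h1 (by rw [ff] at h; exact h.symm), ?_⟩
    rw [ff, bBf]
    rcases h2 with h2 | ⟨h2, h3⟩
    · exact Or.inl (zfB.2 h2)
    · exact Or.inr ⟨h3, h2⟩
  have goodXf : ∀ u, goodX u → goodX (f u) := by
    rintro u ⟨h1, h2⟩
    refine ⟨fun h => h1 (by rw [ff] at h; exact h.symm), ?_⟩
    rw [ff, bXf]
    rcases h2 with h2 | h2 | ⟨h2, h3⟩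
    · exact Or.inl (zf.2 h2)
    · exact Or.inr (Or.inl (zf.2 h2))
    · exact Or.inr (Or.inr ⟨h3, h2⟩)
  -- adjacency of good links
  have adjB : ∀ u, goodB u → iB u ≤ iB (f u) →
      iB (f u) = iB u + 1 ∧ u = μ (sq μ f (bB u) (iB u)) := by
    intro u hu hle
    rw [iBf] at hle ⊢
    exact idx_adj μμ ff fμ (cB u) hu.1 (Or.inr (hbB u hu).1) hle
  have adjX : ∀ u, goodX u → jX u ≤ jX (f u) →
      jX (f u) = jX u + 1 ∧ u = g (sq g f (bX u) (jX u)) := by
    intro u hu hle
    rw [jXf] at hle ⊢
    refine idx_adj gg ff fg (cX u) hu.1 ?_ hle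
    rcases hbX u hu with h | h
    · exact Or.inl h
    · exact Or.inr h.1
  have AB : Axis μ f N ρB iB goodB := by
    refine ⟨fun v => hN1 _ _, ?_, fun v => (hρB1 _ _).2 (conn_r v).symm, iBr,
      fun v => (hρB1 _ _).2 (conn_f v).symm, goodBf, ?_, ?_⟩
    · intro u v h1 h2
      have h3 := (hρB1 u v).1 h1
      refine idx_inj μμ ff (cB u) ((cB u).trans h3) ?_
      have h4 : idx μ f (bB u) u = idx μ f (bB v) v := h2
      rw [← H.B1 u v h3] at h4
      exact h4
    · intro u hu
      rcases le_total (iB u) (iB (f u)) with h | h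
      · exact Or.inl (adjB u hu h).1
      · right
        have := (adjB (f u) (goodBf u hu) (by rw [ff]; exact h)).1
        rw [ff] at this
        exact this
    · intro u v hu hv h1 h2 h3 h4
      have e1 := (adjB u hu (by omega)).2
      have e2 := (adjB v hv (by omega)).2
      have h5 := (hρB1 u v).1 h1
      rw [e1, e2, H.B1 u v h5, h2]
  have AX : Axis g f N ρX iX goodX := by
    refine ⟨?_, ?_, fun v => (hX1 _ _).2 (conn_r v).symm, ?_,
      fun v => (hX1 _ _).2 (conn_f v).symm, goodXf, ?_, ?_⟩
    · intro v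
      have := jXlt v
      by_cases h : Conn g f z' v
      · rw [iX2 v h]; omega
      · rw [iX1 v h]; exact this
    · intro u v h1 h2
      have h3 := (hX1 u v).1 h1
      refine idx_inj gg ff (cX u) ((cX u).trans h3) ?_
      have h4 : jX u = jX v := by
        have l1 := jXlt u
        have l2 := jXlt v
        by_cases h : Conn g f z' u
        · rw [iX2 u h, iX2 v (h.trans h3)] at h2
          omega
        · rw [iX1 u h, iX1 v (fun h' => h (h'.trans h3.symm))] at h2
          exact h2
      have h5 : idx g f (bX u) u = idx g f (bX v) v := h4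
      rw [← H.X1 u v h3] at h5
      exact h5
    · intro v
      by_cases h : Conn g f z' v
      · rw [iX2 v h, iX2 (g v) (zr.2 h), jXr]
      · rw [iX1 v h, iX1 (g v) (fun h' => h (zr.1 h')), jXr]
    · intro u hu
      have l1 := jXlt u
      have l2 := jXlt (f u)
      have key : jX (f u) = jX u + 1 ∨ jX u = jX (f u) + 1 := by
        rcases le_total (jX u) (jX (f u)) with h | h
        · exact Or.inl (adjX u hu h).1
        · right
          have := (adjX (f u) (goodXf u hu) (by rw [ff]; exact h)).1
          rw [ff] at this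
          exact this
      by_cases h : Conn g f z' u
      · rw [iX2 u h, iX2 (f u) (zf.2 h)]
        omega
      · rw [iX1 u h, iX1 (f u) (fun h' => h (zf.1 h'))]
        exact key
    · intro u v hu hv h1 h2 h3 h4
      have h5 := (hX1 u v).1 h1
      have l1 := jXlt u
      have l2 := jXlt (f u)
      have l3 := jXlt v
      have l4 := jXlt (f v)
      by_cases h : Conn g f z' u
      · have h' : Conn g f z' v := h.trans h5
        rw [iX2 u h, iX2 (f u) (zf.2 h)] at h3
        rw [iX2 v h', iX2 (f v) (zf.2 h')] at h4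
        rw [iX2 u h, iX2 v h'] at h2
        have e1 := (adjX (f u) (goodXf u hu) (by rw [ff]; omega)).2
        have e2 := (adjX (f v) (goodXf v hv) (by rw [ff]; omega)).2
        have h6 : jX (f u) = jX (f v) := by omega
        have h7 : f u = f v := by
          rw [e1, e2, bXf, bXf, H.X1 u v h5, h6]
        have := congrArg f h7
        rwa [ff, ff] at this
      · have h' : ¬ Conn g f z' v := fun h' => h (h'.trans h5.symm)
        rw [iX1 u h, iX1 (f u) (fun h' => h (zf.1 h'))] at h3
        rw [iX1 v h', iX1 (f v) (fun h'' => h' (zf.1 h''))] at h4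
        rw [iX1 u h, iX1 v h'] at h2
        have e1 := (adjX u hu (by omega)).2
        have e2 := (adjX v hv (by omega)).2
        rw [e1, e2, H.X1 u v h5, h2]
  -- facts about closing links
  have nB : ∀ u, f u ≠ u → ¬ goodB u → ¬ Conn μ f z u ∧ (u = bB u ∨ f u = bB u) := by
    intro u h1 h2
    by_contra h3
    apply h2
    refine ⟨h1, ?_⟩
    by_cases h4 : Conn μ f z u
    · exact Or.inl h4
    · right
      constructor
      · intro h5
        exact h3 ⟨h4, Or.inl h5⟩
      · intro h5
        exact h3 ⟨h4, Or.inr h5⟩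
  have nX : ∀ u, f u ≠ u → ¬ goodX u →
      (¬ Conn g f z u ∧ ¬ Conn g f z' u) ∧ (u = bX u ∨ f u = bX u) := by
    intro u h1 h2
    by_contra h3
    apply h2
    refine ⟨h1, ?_⟩
    by_cases h4 : Conn g f z u
    · exact Or.inl h4
    by_cases h6 : Conn g f z' u
    · exact Or.inr (Or.inl h6)
    · right; right
      constructor
      · intro h5
        exact h3 ⟨⟨h4, h6⟩, Or.inl h5⟩
      · intro h5
        exact h3 ⟨⟨h4, h6⟩, Or.inr h5⟩
  -- (K1)
  have K1 : ∀ u, f u ≠ u → ¬ goodX u → ρB u = ft u := by
    intro u h1 h2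
    obtain ⟨⟨h3, h4⟩, h5⟩ := nX u h1 h2
    have h6 := H.X3 u h3 h4
    rcases h5 with h5 | h5
    · rw [← h5] at h6; exact h6
    · rw [← h5] at h6
      rw [← h6]
      exact (hρB1 _ _).2 (conn_f u)
  -- (K2)
  have K2 : ∀ u, f u ≠ u → ¬ goodB u → Conn g f z u ∨ Conn g f z' u ∨ ft u < ρB u := by
    intro u h1 h2
    obtain ⟨h3, h5⟩ := nB u h1 h2
    have h6 := H.B3 u h3
    have h7 : Conn g f u (bB u) := by
      rcases h5 with h5 | h5
      · rw [← h5]; exact Conn.refl u
      · rw [← h5]; exact conn_f u
    rcases h6 with ⟨_, h6 | h6⟩ | h6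
    · exact Or.inl (h6.trans h7.symm)
    · right; right
      rw [hf1 u _ h7]
      exact h6.2
    · exact Or.inr (Or.inl (h6.trans h7.symm))
  -- no link is closing in both
  have hgood : ∀ u, f u ≠ u → goodX u ∨ goodB u := by
    intro u h1
    by_contra h2
    push Not at h2
    have h3 := K1 u h1 h2.1
    obtain ⟨⟨h4, h5⟩, -⟩ := nX u h1 h2.1
    rcases K2 u h1 h2.2 with h6 | h6 | h6
    · exact h4 h6
    · exact h5 h6
    · omega
  -- (CX)
  have CX : ∀ u, f u ≠ u → ¬ goodX u → ∀ v, Conn g f u v → v ≠ u → v ≠ f u →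
      max (co N ρB iB u) (co N ρB iB (f u)) ≤ co N ρB iB v := by
    intro u h1 h2 v h3 h4 h5
    obtain ⟨⟨h6, h7⟩, h8⟩ := nX u h1 h2
    set b := bX u with hb
    have hbu : Conn g f u b := H.X2 u
    have hfb : f b ≠ b := by
      intro h
      rcases (ffix b).1 h with h' | h'
      · exact h6 (h' ▸ hbu.symm)
      · exact h7 (h' ▸ hbu.symm)
    have hρb : ρB b = ft u := H.X3 u h6 h7
    have hftb : ft b = ft u := (hf1 _ _ hbu).symm
    -- the topmost lemma in the block of `b`
    have hc : Conn μ f (bB b) b := cB b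
    have hbase : bB b ∉ {v | Conn g f u v} := by
      intro h
      have h9 : Conn g f u (bB b) := h
      by_cases hzb : Conn μ f z b
      · have e : bB b = z := (H.B1 z b hzb).symm.trans H.Bz
        rw [e] at h9
        exact h6 h9.symm
      · rcases H.B3 b hzb with ⟨_, h10 | h10⟩ | h10
        · exact h6 (h10.trans h9.symm)
        · have e := hf1 _ _ h9
          have e' := h10.2
          omega
        · exact h7 (h10.trans h9.symm)
    obtain ⟨t1, t2⟩ := topmost (r := μ) (f := f) μμ ff fμ (b := bB b) (u := b)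
      (X := {v | Conn g f u v}) (fun v hv => Conn.trans hv (conn_f v)) hc hbu
      (fun v hv hv' => H.X4 u h6 h7 v hv (hc.symm.trans hv')) (Or.inr hbase) hfb
    have t3 : iB (f b) = iB b + 1 := by
      rw [iBf]; exact t1
    -- vertices of the strip
    have key : ∀ v, Conn g f u v → v ≠ b → co N ρB iB (f b) ≤ co N ρB iB v := by
      intro v hv hne
      by_cases hbv : Conn μ f b v
      · have e1 : ρB (f b) = ρB v := ((hρB1 _ _).2 (conn_f b).symm).trans ((hρB1 _ _).2 hbv)
        have e2 := co_sub (N := N) (i := iB) e1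
        have e3 := t2 v hv (hc.trans hbv) hne
        have e4 : iB v = idx μ f (bB b) v := by
          show idx μ f (bB v) v = _
          rw [H.B1 b v hbv]
        have e5 : iB b = idx μ f (bB b) b := rfl
        omega
      · have e1 : ρB b ≤ ρB v := by
          rw [hρb]
          exact hf3 u v hv
        have e2 : ρB b ≠ ρB v := fun h => hbv ((hρB1 _ _).1 h)
        have e3 : ρB (f b) = ρB b := (hρB1 _ _).2 (conn_f b).symm
        exact (co_lt AB.lt (by omega)).le
    have e6 : co N ρB iB b ≤ co N ρB iB (f b) := by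
      have e1 : ρB b = ρB (f b) := (hρB1 _ _).2 (conn_f b)
      have e2 := co_sub (N := N) (i := iB) e1
      omega
    rcases h8 with h8 | h8
    · have h9 := key v h3 (fun h => h4 (h.trans h8.symm))
      rw [← h8] at h9 e6
      exact max_le (e6.trans h9) h9
    · have h10 : u = f b := by
        rw [← h8, ff]
      have h9 := key v h3 (fun h => h5 (h.trans h8.symm))
      rw [← h10] at h9 e6
      rw [← h8] at e6
      exact max_le h9 (e6.trans h9)
  -- (CB)
  have CB : ∀ u, f u ≠ u → ¬ goodB u → (∀ v, Conn μ f u v → v ≠ u → v ≠ f u →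
      max (co N ρX iX u) (co N ρX iX (f u)) ≤ co N ρX iX v) ∨
      (∀ v, Conn μ f u v → v ≠ u → v ≠ f u →
      co N ρX iX v ≤ min (co N ρX iX u) (co N ρX iX (f u))) := by
    intro u h1 h2
    obtain ⟨h6, h8⟩ := nB u h1 h2
    set b := bB u with hb
    have hbu : Conn μ f u b := H.B2 u
    have hfb : f b ≠ b := by
      rcases h8 with h8 | h8
      · rw [← h8]; exact h1
      · rw [← h8, ff]; exact h1.symm
    have hc : Conn g f (bX b) b := cX b
    have hbase : g (bX b) = bX b ∨ bX b ∉ {v | Conn μ f u v} := by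
      by_cases hz1 : Conn g f z b
      · left
        rw [(H.X1 z b hz1).symm, H.Xz]
        exact gw
      by_cases hz2 : Conn g f z' b
      · left
        rw [(H.X1 z' b hz2).symm, H.Xz']
        exact gw'
      right
      intro h9
      have h10 : Conn μ f u (bX b) := h9
      rcases H.B3 u h6 with ⟨_, h11 | h11⟩ | h11
      · exact hz1 h11
      · have e1 := H.X3 b hz1 hz2
        have e2 := (hρB1 _ _).2 h10
        have e3 := h11.2
        rw [← hb] at e3
        omega
      · exact hz2 h11
    obtain ⟨t1, t2⟩ := topmost (r := g) (f := f) gg ff fg (b := bX b) (u := b)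
      (X := {v | Conn μ f u v}) (fun v hv => Conn.trans hv (conn_f v)) hc hbu
      (fun v hv hv' => H.B4 u h6 v hv (hc.symm.trans hv')) hbase hfb
    have t3 : jX (f b) = jX b + 1 := by
      rw [jXf]; exact t1
    have hρfb : ρX b = ρX (f b) := (hX1 _ _).2 (conn_f b)
    have ejv : ∀ v, Conn g f b v → jX v = idx g f (bX b) v := by
      intro v hv
      show idx g f (bX v) v = _
      rw [H.X1 b v hv]
    have ejb : jX b = idx g f (bX b) b := rfl
    by_cases hz2 : Conn g f z' b
    · right
      have hρz : ρX b = ρX z' := ((hX1 _ _).2 hz2).symm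
      have key : ∀ v, Conn μ f u v → v ≠ b → co N ρX iX v ≤ co N ρX iX (f b) := by
        intro v hv hne
        by_cases hbv : Conn g f b v
        · have e1 : ρX (f b) = ρX v := hρfb.symm.trans ((hX1 _ _).2 hbv)
          have e2 := co_sub (N := N) (i := iX) e1
          have e3 := t2 v hv (hc.trans hbv) hne
          rw [iX2 v (hz2.trans hbv), iX2 (f b) (zf.2 hz2)] at e2
          have e4 := ejv v hbv
          have l1 := jXlt v
          have l2 := jXlt (f b)
          omega
        · have e1 : ρX v ≤ ρX b := by rw [hρz]; exact hX3 v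
          have e2 : ρX b ≠ ρX v := fun h => hbv ((hX1 _ _).1 h)
          exact (co_lt AX.lt (by omega)).le
      have e6 : co N ρX iX (f b) ≤ co N ρX iX b := by
        have e2 := co_sub (N := N) (i := iX) hρfb
        rw [iX2 b hz2, iX2 (f b) (zf.2 hz2)] at e2
        have l1 := jXlt b
        omega
      intro v h3 h4 h5
      rcases h8 with h8 | h8
      · have h9 := key v h3 (fun h => h4 (h.trans h8.symm))
        rw [← h8] at h9 e6
        exact le_min (h9.trans e6) h9
      · have h10 : u = f b := by
          rw [← h8, ff]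
        have h9 := key v h3 (fun h => h5 (h.trans h8.symm))
        rw [← h10] at h9 e6
        rw [← h8] at e6
        exact le_min h9 (h9.trans e6)
    · left
      have hmin : ∀ v, Conn μ f u v → ρX b ≤ ρX v := by
        rcases H.B3 u h6 with ⟨h11, _⟩ | h11
        · exact h11
        · exact absurd h11 hz2
      have key : ∀ v, Conn μ f u v → v ≠ b → co N ρX iX (f b) ≤ co N ρX iX v := by
        intro v hv hne
        by_cases hbv : Conn g f b v
        · have e1 : ρX (f b) = ρX v := hρfb.symm.trans ((hX1 _ _).2 hbv)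
          have e2 := co_sub (N := N) (i := iX) e1
          have e3 := t2 v hv (hc.trans hbv) hne
          rw [iX1 v (fun h => hz2 (h.trans hbv.symm)), iX1 (f b) (fun h => hz2 (zf.1 h))] at e2
          have e4 := ejv v hbv
          omega
        · have e1 := hmin v hv
          have e2 : ρX b ≠ ρX v := fun h => hbv ((hX1 _ _).1 h)
          exact (co_lt AX.lt (by omega)).le
      have e6 : co N ρX iX b ≤ co N ρX iX (f b) := by
        have e2 := co_sub (N := N) (i := iX) hρfb
        rw [iX1 b hz2, iX1 (f b) (fun h => hz2 (zf.1 h))] at e2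
        omega
      intro v h3 h4 h5
      rcases h8 with h8 | h8
      · have h9 := key v h3 (fun h => h4 (h.trans h8.symm))
        rw [← h8] at h9 e6
        exact max_le (e6.trans h9) h9
      · have h10 : u = f b := by
          rw [← h8, ff]
        have h9 := key v h3 (fun h => h5 (h.trans h8.symm))
        rw [← h10] at h9 e6
        rw [← h8] at e6
        exact max_le h9 (e6.trans h9)
  -- special strips
  have hρz0 : ∀ v, ρX v = 0 ↔ Conn g f z v := by
    intro v
    rw [← hX1 z v, hX2]
    exact eq_comm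
  have hlast : ∀ v, Conn g f z v → jX v ≤ jX z := by
    intro v hv
    have e1 : bX v = w := (H.X1 z v hv).symm.trans H.Xz
    show idx g f (bX v) v ≤ idx g f (bX z) z
    rw [e1, H.Xz]
    exact idx_le_last gg ff gw zw.symm fz (zw.symm.trans hv)
  have hlast' : ∀ v, Conn g f z' v → jX v ≤ jX z' := by
    intro v hv
    have e1 : bX v = w' := (H.X1 z' v hv).symm.trans H.Xz'
    show idx g f (bX v) v ≤ idx g f (bX z') z'
    rw [e1, H.Xz']
    exact idx_le_last gg ff gw' zw'.symm fz' (zw'.symm.trans hv)
  have hnz : ∀ v, Conn g f z v → ¬ Conn g f z' v := fun v h h' => zz (h.trans h'.symm)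
  refine ⟨co N ρX iX, fun v => - co N ρB iB v, ?_⟩
  have sepX : ∀ {a b u v : V} , Sep1 (co N ρX iX) a b u v →
      Sep (co N ρX iX) (fun v => - co N ρB iB v) a b u v := fun h => Or.inl h
  have sepB : ∀ {a b u v : V} , Sep1 (co N ρB iB) a b u v →
      Sep (co N ρX iX) (fun v => - co N ρB iB v) a b u v := by
    intro a b u v h
    right
    unfold Sep1 at h
    show max (- co N ρB iB a) (- co N ρB iB b) ≤ min (- co N ρB iB u) (- co N ρB iB v) ∨
      max (- co N ρB iB u) (- co N ρB iB v) ≤ min (- co N ρB iB a) (- co N ρB iB b)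
    omega
  have tightB : ∀ u, goodB u → Tight (fun v => - co N ρB iB v) u (f u) := by
    intro u hu v
    have := AB.tight hu v
    show - co N ρB iB v ≤ min (- co N ρB iB u) (- co N ρB iB (f u)) ∨
      max (- co N ρB iB u) (- co N ρB iB (f u)) ≤ - co N ρB iB v
    omega
  refine ⟨?_, ?_, ?_, ?_, ?_, ?_, ?_, ?_, ?_, ?_, ?_, ?_, ?_, ?_⟩
  · -- row
    intro u v
    rw [neg_inj]
    exact AB.eq_iff u v
  · -- col
    exact AX.eq_iff
  · -- tight
    intro u hu
    rcases hgood u hu with h | h
    · exact Or.inl (AX.tight h)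
    · exact Or.inr (tightB u h)
  · -- sepF
    intro u v hu hv h1 h2
    by_cases gXu : goodX u
    · by_cases gXv : goodX v
      · exact sepX (AX.sep ff gXu gXv h1 h2)
      · have gBv : goodB v := (hgood v hv).resolve_left gXv
        by_cases gBu : goodB u
        · exact sepB (AB.sep ff gBu gBv h1 h2)
        · by_cases hs : Conn g f v u
          · apply sepB
            refine Axis.contig AB.lt (AB.ρf u).symm (AB.ρf v).symm ?_
            have e1 := K1 v hv gXv
            obtain ⟨⟨e2, e3⟩, -⟩ := nX v hv gXv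
            rcases K2 u hu gBu with e4 | e4 | e4
            · exact absurd (e4.trans hs.symm) e2
            · exact absurd (e4.trans hs.symm) e3
            · have e5 := hf1 _ _ hs
              omega
          · apply sepX
            refine Axis.contig AX.lt (AX.ρf u).symm (AX.ρf v).symm ?_
            intro h
            exact hs ((hX1 _ _).1 h.symm)
    · have gBu : goodB u := (hgood u hu).resolve_left gXu
      by_cases gBv : goodB v
      · exact sepB (AB.sep ff gBu gBv h1 h2)
      · by_cases hs : Conn g f u v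
        · apply sepB
          refine Axis.contig AB.lt (AB.ρf u).symm (AB.ρf v).symm ?_
          have e1 := K1 u hu gXu
          obtain ⟨⟨e2, e3⟩, -⟩ := nX u hu gXu
          rcases K2 v hv gBv with e4 | e4 | e4
          · exact absurd (e4.trans hs.symm) e2
          · exact absurd (e4.trans hs.symm) e3
          · have e5 := hf1 _ _ hs
            omega
        · apply sepX
          refine Axis.contig AX.lt (AX.ρf u).symm (AX.ρf v).symm ?_
          intro h
          exact hs ((hX1 _ _).1 h)
  · -- sepH
    intro u v hu h1 h2 h3 h4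
    by_cases gBu : goodB u
    · apply sepB
      have := AB.tight gBu v
      have e : co N ρB iB (μ v) = co N ρB iB v := ((AB.eq_iff v (μ v)).2 (Or.inr rfl)).symm
      unfold Sep1
      omega
    · by_cases hs : Conn μ f u v
      · apply sepX
        have hs' : Conn μ f u (μ v) := zrB.2 hs
        rcases CB u hu gBu with h | h
        · have e1 := h v hs h1 h2
          have e2 := h (μ v) hs' h3 h4
          unfold Sep1
          omega
        · have e1 := h v hs h1 h2
          have e2 := h (μ v) hs' h3 h4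
          unfold Sep1
          omega
      · apply sepB
        refine Axis.contig AB.lt (AB.ρf u).symm (AB.ρr v).symm ?_
        intro h
        exact hs ((hρB1 _ _).1 h)
  · -- sepV
    intro u v hu h1 h2 h3 h4
    by_cases gXu : goodX u
    · apply sepX
      have := AX.tight gXu v
      have e : co N ρX iX (g v) = co N ρX iX v := ((AX.eq_iff v (g v)).2 (Or.inr rfl)).symm
      unfold Sep1
      omega
    · by_cases hs : Conn g f u v
      · apply sepB
        have hs' : Conn g f u (g v) := zr.2 hs
        have e1 := CX u hu gXu v hs h1 h2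
        have e2 := CX u hu gXu (g v) hs' h3 h4
        unfold Sep1
        omega
      · apply sepX
        refine Axis.contig AX.lt (AX.ρf u).symm (AX.ρr v).symm ?_
        intro h
        exact hs ((hX1 _ _).1 h)
  · -- left
    intro v hv
    have e0 : iX w = 0 := by
      rw [iX1 w (hnz w zw)]
      show idx g f (bX w) w = 0
      have : bX w = w := (H.X1 z w zw).symm.trans H.Xz
      rw [this, idx_base]
    have e1 : ρX w = 0 := (hρz0 w).2 zw
    by_cases h : Conn g f z v
    · have e2 : ρX w = ρX v := by rw [e1, (hρz0 v).2 h]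
      have e3 := co_sub (N := N) (i := iX) e2
      have e4 : iX v ≠ 0 := by
        intro h5
        rw [iX1 v (hnz v h)] at h5
        have h6 : bX v = w := (H.X1 z v h).symm.trans H.Xz
        have h7 : idx g f (bX v) v = 0 := h5
        rw [h6] at h7
        rcases idx_zero gg ff (zw.symm.trans h) h7 with h8 | h8
        · exact hv h8
        · exact hv (h8.trans gw)
      omega
    · have : ρX v ≠ 0 := fun h' => h ((hρz0 v).1 h')
      exact co_lt AX.lt (by omega)
  · -- right
    intro v hv
    have e0 : iX w' = N - 1 := by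
      rw [iX2 w' zw']
      have h1 : jX w' = 0 := by
        show idx g f (bX w') w' = 0
        have : bX w' = w' := (H.X1 z' w' zw').symm.trans H.Xz'
        rw [this, idx_base]
      rw [h1]
      omega
    have e1 : ρX z' = ρX w' := (hX1 _ _).2 zw'
    by_cases h : Conn g f z' v
    · have e2 : ρX w' = ρX v := by rw [← e1]; exact (hX1 _ _).2 h
      have e3 := co_sub (N := N) (i := iX) e2
      have e4 : jX v ≠ 0 := by
        intro h5
        have h6 : bX v = w' := (H.X1 z' v h).symm.trans H.Xz'
        have h7 : idx g f (bX v) v = 0 := h5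
        rw [h6] at h7
        rcases idx_zero gg ff (zw'.symm.trans h) h7 with h8 | h8
        · exact hv h8
        · exact hv (h8.trans gw')
      have e5 := iX2 v h
      have l1 := jXlt v
      omega
    · have h1 := hX3 v
      have h2 : ρX z' ≠ ρX v := fun h' => h ((hX1 _ _).1 h')
      exact co_lt AX.lt (by omega)
  · -- top
    intro v h1 h2
    show - co N ρB iB v < - co N ρB iB z
    have e0 : iB z = 0 := by
      show idx μ f (bB z) z = 0
      rw [H.Bz, idx_base]
    by_cases h : Conn μ f z v
    · have e2 : ρB z = ρB v := (hρB1 _ _).2 h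
      have e3 := co_sub (N := N) (i := iB) e2
      have e4 : iB v ≠ 0 := by
        intro h5
        have h6 : bB v = z := (H.B1 z v h).symm.trans H.Bz
        have h7 : idx μ f (bB v) v = 0 := h5
        rw [h6] at h7
        rcases idx_zero μμ ff h h7 with h8 | h8
        · exact h1 h8
        · exact h2 h8
      omega
    · have := co_lt AB.lt (hρB2 v h)
      omega
  · -- μzx
    have : ρX (μ z) ≠ 0 := fun h => μz ((hρz0 _).1 h)
    exact co_lt AX.lt (by omega)
  · -- strip
    intro v hv
    have h1 : Conn g f z v := by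
      rw [← hρz0]
      by_contra h
      have := co_lt (ρ := ρX) (i := iX) (u := z) (v := v) AX.lt (by omega)
      omega
    have h2 : Conn g f z (f v) := zf.2 h1
    have e1 : ρX (f v) = ρX z := by rw [(hρz0 _).2 h2, hX2]
    have e2 := co_sub (N := N) (i := iX) e1
    have e3 := hlast (f v) h2
    rw [iX1 _ (hnz _ h2), iX1 z (hnz z (Conn.refl z))] at e2
    omega
  · -- zz
    have : ρX z' ≠ 0 := fun h => zz ((hρz0 _).1 h)
    exact co_lt AX.lt (by omega)
  · -- strip'
    intro v hv
    have h1 : Conn g f z' v := by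
      rw [← hX1]
      by_contra h
      have h3 := hX3 v
      have := co_lt (ρ := ρX) (i := iX) (u := v) (v := z') AX.lt (by omega)
      omega
    have h2 : Conn g f z' (f v) := zf.2 h1
    have e1 : ρX z' = ρX (f v) := (hX1 _ _).2 h2
    have e2 := co_sub (N := N) (i := iX) e1
    have e3 := hlast' (f v) h2
    rw [iX2 _ h2, iX2 z' (Conn.refl z')] at e2
    have l1 := jXlt z'
    omega
  · -- low'
    intro v hv hne
    show - co N ρB iB v < - co N ρB iB z'
    have h1 : Conn g f z' v := by
      rw [← hX1]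
      by_contra h
      have h3 := hX3 v
      have := co_lt (ρ := ρX) (i := iX) (u := v) (v := z') AX.lt (by omega)
      omega
    have h2 : ¬ Conn μ f z v := fun h => hne (bz' v h h1)
    have e1 := hρB2 v h2
    have e2 : ρB z = ρB z' := (hρB1 _ _).2 bz
    have := co_lt (ρ := ρB) (i := iB) (u := z') (v := v) AB.lt (by omega)
    omega

end Pool.Agent.Lib.MP_a17342_co
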