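import Pool.Agent.Lib.MP_a17342_co.Layout
import Pool.Agent.Lib.MP_a17342_co.Geo
import Pool.Agent.Lib.MP_a17342_co.Choice
import Pool.Agent.Lib.MP_a17342_co.Graph

/-!
# Connected cubic graphs having a 2-factor with exactly two odd cycles are RAC
-/

set_option autoImplicit false

namespace Pool.Agent.Lib.MP_a17342_co

/-- a drawing of a graph restricts to every graph mapped into it injectively -/
theorem IsRAC.comap {V W : Type*} {G : SimpleGraph V} {H : SimpleGraph W} {p : V → ℝ × ℝ}
    (h : IsRAC G p) (φ : W → V) (hφ : Function.Injective φ)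
    (hadj : ∀ a b, H.Adj a b → G.Adj (φ a) (φ b)) : IsRAC H (p ∘ φ) := by
  obtain ⟨h1, h2, h3⟩ := h
  refine ⟨h1.comp hφ, ?_, ?_⟩
  · intro a b c hab hca hcb
    exact h2 (φ a) (φ b) (φ c) (hadj a b hab) (hφ.ne hca) (hφ.ne hcb)
  · intro a b c d hab hcd h4 h5 h6 h7 h8
    exact h3 (φ a) (φ b) (φ c) (φ d) (hadj a b hab) (hadj c d hcd) (hφ.ne h4) (hφ.ne h5)
      (hφ.ne h6) (hφ.ne h7) h8

theorem main {V : Type*} [Fintype V] (G : SimpleGraph V) (hG : G.Connected)
    (hdeg : ∀ v, (G.neighborSet v).ncard = 3) (M : G.Subgraph) (hM : M.IsPerfectMatching)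
    (hodd : {c : (G \ M.spanningCoe).ConnectedComponent | Odd c.supp.ncard}.ncard = 2) :
    ∃ p : V → ℝ × ℝ, IsRAC G p := by
  classical
  rw [SimpleGraph.Subgraph.isPerfectMatching_iff] at hM
  choose μ hμ1 hμ2 using hM
  simp only at hμ2
  have hμμ : ∀ v, μ (μ v) = v := fun v => (hμ2 (μ v) v (hμ1 v).symm).symm
  have hCadj : ∀ a b, (G \ M.spanningCoe).Adj a b ↔ G.Adj a b ∧ ¬ b = μ a := by
    intro a b
    rw [SimpleGraph.sdiff_adj, SimpleGraph.Subgraph.spanningCoe_adj]
    constructor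
    · rintro ⟨h1, h2⟩
      exact ⟨h1, fun h => h2 (h ▸ hμ1 a)⟩
    · rintro ⟨h1, h2⟩
      exact ⟨h1, fun h => h2 (hμ2 a b h)⟩
  have hC2 : ∀ v, ((G \ M.spanningCoe).neighborSet v).ncard = 2 := by
    intro v
    have h1 : (G \ M.spanningCoe).neighborSet v = G.neighborSet v \ {μ v} := by
      ext b
      simp only [SimpleGraph.mem_neighborSet, Set.mem_sdiff, Set.mem_singleton_iff]
      exact hCadj v b
    have h2 : μ v ∈ G.neighborSet v := (hμ1 v).adj_sub
    rw [h1, Set.ncard_sdiff_singleton_of_mem h2, hdeg]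
  obtain ⟨σ, h1, h2, h3, h4, h5⟩ := exists_orientation (G \ M.spanningCoe) hC2
  have hadj : ∀ a b, G.Adj a b ↔ b = μ a ∨ b = σ a ∨ a = σ b := by
    intro a b
    rw [← h1, hCadj]
    constructor
    · intro h
      by_cases hb : b = μ a
      · exact Or.inl hb
      · exact Or.inr ⟨h, hb⟩
    · rintro (h | h)
      · rw [h]; exact (hμ1 a).adj_sub
      · exact h.1
  have hconn : ∀ S : Set V, S.Nonempty → (∀ v ∈ S, μ v ∈ S ∧ σ v ∈ S) → ∀ v, v ∈ S := by
    intro S hS hcl v
    obtain ⟨s, hs⟩ := hS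
    have hinv : ∀ x, σ x ∈ S → x ∈ S := by
      intro x hx
      have hpow : ∀ n : ℕ, ∀ y, y ∈ S → (σ ^ n) y ∈ S := by
        intro n
        induction n with
        | zero => intro y hy; exact hy
        | succ n ih =>
          intro y hy
          rw [pow_succ, Equiv.Perm.mul_apply]
          exact ih _ (hcl y hy).2
      have h6 := hpow (orderOf σ - 1) _ hx
      have h7 : σ ^ (orderOf σ - 1) * σ = 1 := by
        rw [← pow_succ, Nat.sub_add_cancel (orderOf_pos σ), pow_orderOf_eq_one]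
      have h8 : (σ ^ (orderOf σ - 1)) (σ x) = x := by
        rw [← Equiv.Perm.mul_apply, h7, Equiv.Perm.one_apply]
      rwa [h8] at h6
    obtain ⟨p⟩ := hG.preconnected s v
    induction p with
    | nil => exact hs
    | cons h p ih =>
      apply ih
      rcases (hadj _ _).1 h with h | h | h
      · rw [h]; exact (hcl _ hs).1
      · rw [h]; exact (hcl _ hs).2
      · exact hinv _ (h ▸ hs)
  obtain ⟨c1, c2, hne, hset⟩ := Set.ncard_eq_two.1 hodd
  obtain ⟨c, rfl⟩ := c1.exists_rep
  obtain ⟨c', rfl⟩ := c2.exists_rep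
  change (G \ M.spanningCoe).connectedComponentMk c ≠
    (G \ M.spanningCoe).connectedComponentMk c' at hne
  change _ = ({(G \ M.spanningCoe).connectedComponentMk c,
    (G \ M.spanningCoe).connectedComponentMk c'} : Set _) at hset
  have hmem : ∀ v, Odd (Function.minimalPeriod σ v) ↔
      (G \ M.spanningCoe).connectedComponentMk v ∈
        ({(G \ M.spanningCoe).connectedComponentMk c,
          (G \ M.spanningCoe).connectedComponentMk c'} : Set _) := by
    intro v
    rw [← hset, h5]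
    rfl
  obtain ⟨f, g, z, w, z', w', D⟩ := choice G σ μ hμμ (fun v h => M.loopless.irrefl v (by
      have := hμ1 v
      rwa [h] at this)) (fun v h => by
        have h6 := (h1 v (σ v)).2 (Or.inl rfl)
        exact ((hCadj _ _).1 h6).2 h.symm) h2 h3 hadj hconn c c'
    ((hmem c).2 (Or.inl rfl)) ((hmem c').2 (Or.inr rfl))
    (fun h => hne (SimpleGraph.ConnectedComponent.eq.2 ((h4 c c').1 h)))
    (by
      intro v hv hv'
      rw [← Nat.not_odd_iff_even, hmem]
      rintro (h | h)
      · exact hv ((h4 c v).2 (SimpleGraph.ConnectedComponent.eq.1 h).symm)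
      · exact hv' ((h4 c' v).2 (SimpleGraph.ConnectedComponent.eq.1 h).symm))
  obtain ⟨x, y, L⟩ := layout G μ f g z w z' w' D
  exact geo G μ f g z w z' w' D x y L

end Pool.Agent.Lib.MP_a17342_co
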