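import Pool.Agent.Lib.MP_a17342_co.Ladder

/-!
# Ranks of blocks and strips, and choice of the closing links
-/

set_option autoImplicit false

namespace Pool.Agent.Lib.MP_a17342_co

variable {V : Type*}

/-- setoid of components -/
def cset (r f : V → V) : Setoid V := ⟨Conn r f, Conn.refl, Conn.symm, Conn.trans⟩

/-- canonical representative of a component -/
noncomputable def rep (r f : V → V) (v : V) : V := (Quotient.mk (cset r f) v).out

theorem rep_conn (r f : V → V) (v : V) : Conn r f (rep r f v) v :=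
  Quotient.exact (s := cset r f) (Quotient.out_eq (Quotient.mk (cset r f) v))

theorem rep_eq {r f : V → V} {u v : V} (h : Conn r f u v) : rep r f u = rep r f v := by
  unfold rep
  rw [Quotient.sound (s := cset r f) h]

theorem rep_eq_iff {r f : V → V} {u v : V} : rep r f u = rep r f v ↔ Conn r f u v :=
  ⟨fun h => (rep_conn r f u).symm.trans (h ▸ rep_conn r f v), rep_eq⟩

/-- number of the component -/
noncomputable def cid [Fintype V] (r f : V → V) (v : V) : ℕ := Fintype.equivFin V (rep r f v)

theorem cid_lt [Fintype V] (r f : V → V) (v : V) : cid r f v < Fintype.card V := Fin.is_lt _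

theorem cid_eq_iff [Fintype V] {r f : V → V} {u v : V} : cid r f u = cid r f v ↔ Conn r f u v := by
  unfold cid
  rw [← rep_eq_iff]
  constructor
  · intro h
    exact (Fintype.equivFin V).injective (Fin.ext h)
  · intro h
    rw [h]

/-- blocks reached after `n` steps -/
def reach (μ f g : V → V) (z : V) : ℕ → Set V
  | 0 => {v | Conn μ f z v}
  | n + 1 => {v | ∃ u ∈ reach μ f g z n, ∃ v1, Conn g f u v1 ∧ Conn μ f v1 v}

theorem reach_conn {μ f g : V → V} {z u v : V} {n : ℕ} (hu : u ∈ reach μ f g z n)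
    (h : Conn μ f u v) : v ∈ reach μ f g z n := by
  cases n with
  | zero => exact Conn.trans hu h
  | succ n =>
    obtain ⟨a, ha, b, hab, hb⟩ := hu
    exact ⟨a, ha, b, hab, hb.trans h⟩

theorem lex_lt {N a b c d : ℕ} (hb : b < N) (h : a < c) : a * N + b < c * N + d := by
  have : (a + 1) * N ≤ c * N := Nat.mul_le_mul_right N h
  have h2 : (a + 1) * N = a * N + N := by ring
  omega

theorem lex_eq {N a b c d : ℕ} (hb : b < N) (hd : d < N) (h : a * N + b = c * N + d) :
    a = c ∧ b = d := by
  rcases Nat.lt_trichotomy a c with h1 | h1 | h1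
  · have := lex_lt (d := d) hb h1
    omega
  · subst h1
    exact ⟨rfl, by omega⟩
  · have := lex_lt (d := b) hd h1
    omega

theorem exists_rank [Fintype V] (μ f g : V → V) (z : V)
    (hconn : ∀ S : Set V, S.Nonempty → (∀ v ∈ S, μ v ∈ S ∧ f v ∈ S ∧ g v ∈ S) → ∀ v, v ∈ S) :
    ∃ ρ : V → ℕ, (∀ u v, ρ u = ρ v ↔ Conn μ f u v) ∧ (∀ v, ¬ Conn μ f z v → ρ z < ρ v) ∧
      ∀ v, ¬ Conn μ f z v → ∃ u v1, Conn g f u v1 ∧ Conn μ f v1 v ∧ ρ u < ρ v := by
  classical
  have hex : ∀ v, ∃ n, v ∈ reach μ f g z n := by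
    refine hconn {v | ∃ n, v ∈ reach μ f g z n} ⟨z, 0, Conn.refl z⟩ ?_
    rintro v ⟨n, hn⟩
    exact ⟨⟨n, reach_conn hn (conn_r v)⟩, ⟨n, reach_conn hn (conn_f v)⟩,
      ⟨n + 1, v, hn, g v, conn_r v, Conn.refl _⟩⟩
  let d : V → ℕ := fun v => Nat.find (hex v)
  have hdle : ∀ u v, Conn μ f u v → d v ≤ d u := fun u v h =>
    Nat.find_min' (hex v) (reach_conn (Nat.find_spec (hex u)) h)
  have hdc : ∀ u v, Conn μ f u v → d u = d v := fun u v h =>
    le_antisymm (hdle v u h.symm) (hdle u v h)
  have hdz : d z = 0 := Nat.le_zero.1 (Nat.find_min' (hex z) (Conn.refl z))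
  have hd0 : ∀ v, d v = 0 → Conn μ f z v := by
    intro v h
    have := Nat.find_spec (hex v)
    rw [show Nat.find (hex v) = 0 from h] at this
    exact this
  set N := Fintype.card V with hN
  refine ⟨fun v => d v * N + cid μ f v, ?_, ?_, ?_⟩
  · intro u v
    constructor
    · intro h
      exact cid_eq_iff.1 (lex_eq (cid_lt _ _ _) (cid_lt _ _ _) h).2
    · intro h
      show d u * N + cid μ f u = d v * N + cid μ f v
      rw [hdc u v h, cid_eq_iff.2 h]
  · intro v h
    refine lex_lt (cid_lt _ _ _) ?_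
    rw [hdz]
    exact Nat.pos_of_ne_zero fun h0 => h (hd0 v h0)
  · intro v h
    have hpos : d v ≠ 0 := fun h0 => h (hd0 v h0)
    obtain ⟨n, hn⟩ : ∃ n, d v = n + 1 := ⟨d v - 1, by omega⟩
    have hmem := Nat.find_spec (hex v)
    rw [show Nat.find (hex v) = n + 1 from hn] at hmem
    obtain ⟨u, hu, v1, h1, h2⟩ := hmem
    refine ⟨u, v1, h1, h2, lex_lt (cid_lt _ _ _) ?_⟩
    have : d u ≤ n := Nat.find_min' (hex u) hu
    omega

/-- recursion along a parent map -/
theorem rec_exists {N W : Type*} (P : N → N) (rk : N → ℕ) (sp : N → Prop) (root : N → W)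
    (step : N → W → W) (h : ∀ n, ¬ sp n → rk (P n) < rk n) :
    ∃ base : N → W, (∀ n, sp n → base n = root n) ∧
      ∀ n, ¬ sp n → base n = step n (base (P n)) := by
  classical
  let F : (n : N) → ((m : N) → rk m < rk n → W) → W :=
    fun n ih => if hs : sp n then root n else step n (ih (P n) (h n hs))
  let wf : WellFounded (fun a b : N => rk a < rk b) := (measure rk).wf
  refine ⟨wf.fix F, ?_, ?_⟩
  · intro n hs
    rw [wf.fix_eq]
    exact dif_pos hs
  · intro n hs
    rw [wf.fix_eq]
    exact dif_neg hs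

/-- minimiser of a natural number valued function on a nonempty set -/
theorem exists_min {W : Type*} (S : W → Prop) (hS : ∃ u, S u) (φ : W → ℕ) :
    ∃ u, S u ∧ ∀ u', S u' → φ u ≤ φ u' := by
  classical
  have hex : ∃ n, ∃ u, S u ∧ φ u = n := by
    obtain ⟨u, hu⟩ := hS
    exact ⟨_, u, hu, rfl⟩
  obtain ⟨u, hu, hn⟩ := Nat.find_spec hex
  exact ⟨u, hu, fun u' hu' => hn ▸ Nat.find_min' hex ⟨u', hu', rfl⟩⟩

/-- ranks of the strips -/
theorem exists_strip_rank [Fintype V] (μ f g : V → V) (z z' : V) (hzz : ¬ Conn g f z z')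
    (ρB : V → ℕ) :
    ∃ ρX ft : V → ℕ, (∀ u v, ρX u = ρX v ↔ Conn g f u v) ∧ ρX z = 0 ∧ (∀ v, ρX v ≤ ρX z') ∧
      (∀ u v, Conn g f u v → ft u = ft v) ∧ (∀ v, ∃ u, Conn g f v u ∧ ρB u = ft v) ∧
      (∀ v u, Conn g f v u → ft v ≤ ρB u) ∧
      (∀ u v, ¬ Conn g f z u → ¬ Conn g f z' u → ¬ Conn g f z v → ¬ Conn g f z' v →
        ρX u ≤ ρX v → ft u ≤ ft v) := by
  classical
  choose m hm1 hm2 using fun v : V => exists_min (fun u => Conn g f v u) ⟨v, Conn.refl v⟩ ρB
  let ft : V → ℕ := fun v => ρB (m v)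
  have hft : ∀ u v, Conn g f u v → ft u = ft v := fun u v h =>
    le_antisymm (hm2 u _ (h.trans (hm1 v))) (hm2 v _ (h.symm.trans (hm1 u)))
  set N := Fintype.card V with hN
  let c : V → ℕ := fun v => 1 + (ft v * N + cid g f v)
  let M : ℕ := 1 + Finset.univ.sup c
  have hcM : ∀ v, c v < M := by
    intro v
    have : c v ≤ Finset.univ.sup c := Finset.le_sup (f := c) (Finset.mem_univ v)
    show c v < 1 + Finset.univ.sup c
    omega
  have hc1 : ∀ v, 1 ≤ c v := fun v => Nat.le_add_right 1 _
  have hcc : ∀ u v, c u = c v ↔ Conn g f u v := by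
    intro u v
    constructor
    · intro h
      have h' : ft u * N + cid g f u = ft v * N + cid g f v := by
        have : 1 + (ft u * N + cid g f u) = 1 + (ft v * N + cid g f v) := h
        omega
      exact cid_eq_iff.1 (lex_eq (cid_lt _ _ _) (cid_lt _ _ _) h').2
    · intro h
      show 1 + (ft u * N + cid g f u) = 1 + (ft v * N + cid g f v)
      rw [hft u v h, cid_eq_iff.2 h]
  let ρX : V → ℕ := fun v => if Conn g f z v then 0 else if Conn g f z' v then M else c v
  have e1 : ∀ v, Conn g f z v → ρX v = 0 := fun v h => if_pos h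
  have e2 : ∀ v, Conn g f z' v → ρX v = M := by
    intro v h
    have h1 : ¬ Conn g f z v := fun h1 => hzz (h1.trans h.symm)
    show (if Conn g f z v then 0 else if Conn g f z' v then M else c v) = M
    rw [if_neg h1, if_pos h]
  have e3 : ∀ v, ¬ Conn g f z v → ¬ Conn g f z' v → ρX v = c v := by
    intro v h1 h2
    show (if Conn g f z v then 0 else if Conn g f z' v then M else c v) = c v
    rw [if_neg h1, if_neg h2]
  refine ⟨ρX, ft, ?_, e1 z (Conn.refl z), ?_, hft, fun v => ⟨m v, hm1 v, rfl⟩,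
    fun v u h => hm2 v u h, ?_⟩
  · intro u v
    have hM : 0 < M := Nat.lt_of_lt_of_le (hc1 z) (hcM z).le
    by_cases hu : Conn g f z u
    · rw [e1 u hu]
      by_cases hv : Conn g f z v
      · rw [e1 v hv]
        exact ⟨fun _ => hu.symm.trans hv, fun _ => rfl⟩
      · refine ⟨fun h => ?_, fun h => absurd (hu.trans h) hv⟩
        exfalso
        by_cases hv' : Conn g f z' v
        · rw [e2 v hv'] at h; omega
        · rw [e3 v hv hv'] at h
          have := hc1 v
          omega
    · by_cases hu' : Conn g f z' u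
      · rw [e2 u hu']
        by_cases hv' : Conn g f z' v
        · rw [e2 v hv']
          exact ⟨fun _ => hu'.symm.trans hv', fun _ => rfl⟩
        · refine ⟨fun h => ?_, fun h => absurd (hu'.trans h) hv'⟩
          exfalso
          by_cases hv : Conn g f z v
          · rw [e1 v hv] at h; omega
          · rw [e3 v hv hv'] at h
            have := hcM v
            omega
      · rw [e3 u hu hu']
        by_cases hv : Conn g f z v
        · refine ⟨fun h => ?_, fun h => absurd (hv.trans h.symm) hu⟩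
          rw [e1 v hv] at h
          have := hc1 u
          omega
        · by_cases hv' : Conn g f z' v
          · refine ⟨fun h => ?_, fun h => absurd (hv'.trans h.symm) hu'⟩
            rw [e2 v hv'] at h
            have := hcM u
            omega
          · rw [e3 v hv hv']
            exact hcc u v
  · intro v
    rw [e2 z' (Conn.refl z')]
    by_cases hv : Conn g f z v
    · rw [e1 v hv]; exact Nat.zero_le _
    · by_cases hv' : Conn g f z' v
      · rw [e2 v hv']
      · rw [e3 v hv hv']; exact (hcM v).le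
  · intro u v h1 h2 h3 h4 h
    rw [e3 u h1 h2, e3 v h3 h4] at h
    by_contra hlt
    have h5 : ft v < ft u := not_le.1 hlt
    have h6 := lex_lt (N := N) (d := cid g f u) (cid_lt g f v) h5
    have h7 : 1 + (ft u * N + cid g f u) ≤ 1 + (ft v * N + cid g f v) := h
    omega

end Pool.Agent.Lib.MP_a17342_co
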